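import Mathlib

set_option autoImplicit false

namespace Pool.Agent.H44.Danzer

theorem aux_g1 {τ a X Δ α u P : ℝ} (hu : a = τ * X - α - u) (hP : P = -α * X)
    (G1 : τ * (a ^ 2 - X ^ 2 + Δ ^ 2) + (1 - τ ^ 2) * a * X ≤ (1 + τ ^ 2) * P) :
    τ * (α ^ 2 + Δ ^ 2) ≤ u * ((1 + τ ^ 2) * X - 2 * τ * α - τ * u) := by
  subst hu hP
  linarith

/-- The case `a < b` of the pair inequality. -/
theorem pair_neg {τ X Y a b Δ P1 Q1 : ℝ} (hτ : 0 < τ) (hX : 0 < X) (hY : 0 < Y) (hΔ : 0 ≤ Δ)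
    (G1 : τ * (a ^ 2 - X ^ 2 + Δ ^ 2) + (1 - τ ^ 2) * a * X ≤ (1 + τ ^ 2) * (Δ * P1))
    (G2 : τ * (b ^ 2 - Y ^ 2 + Δ ^ 2) - (1 - τ ^ 2) * b * Y ≤ (1 + τ ^ 2) * (Δ * Q1))
    (D : (X - Y) ^ 2 + (P1 + Q1) ^ 2 < (a - b) ^ 2)
    (hab : a < b) : a - b < Δ * P1 / X + Δ * Q1 / Y := by
  by_contra hcon
  rw [not_lt] at hcon
  have hΔ0 : 0 < Δ := by
    rcases hΔ.lt_or_eq with h | h
    · exact h
    · exfalso
      rw [← h] at hcon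
      simp at hcon
      linarith
  set α : ℝ := -(Δ * P1 / X) with hα
  set γ : ℝ := -(Δ * Q1 / Y) with hγ
  have hPα : Δ * P1 = -α * X := by rw [hα]; field_simp
  have hQγ : Δ * Q1 = -γ * Y := by rw [hγ]; field_simp
  have ht : b - a ≤ α + γ := by rw [hα, hγ]; linarith
  have ht0 : 0 < α + γ := by linarith
  -- the separation inequality multiplied by `Δ ^ 2`
  have h4 : (α * X + γ * Y) ^ 2 + Δ ^ 2 * (X - Y) ^ 2 < Δ ^ 2 * (α + γ) ^ 2 := by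
    have h1 : (α * X + γ * Y) ^ 2 = Δ ^ 2 * (P1 + Q1) ^ 2 := by
      have : α * X + γ * Y = -(Δ * (P1 + Q1)) := by
        have h2 := hPα
        have h3 := hQγ
        linarith [h2, h3, mul_add Δ P1 Q1]
      rw [this]; ring
    rw [h1]
    have h5 : Δ ^ 2 * ((X - Y) ^ 2 + (P1 + Q1) ^ 2) < Δ ^ 2 * (a - b) ^ 2 :=
      mul_lt_mul_of_pos_left D (by positivity)
    have h6 : (a - b) ^ 2 ≤ (α + γ) ^ 2 := by
      have : (a - b) ^ 2 = (b - a) ^ 2 := by ring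
      rw [this]
      exact pow_le_pow_left₀ (by linarith) ht 2
    have h7 : Δ ^ 2 * (a - b) ^ 2 ≤ Δ ^ 2 * (α + γ) ^ 2 :=
      mul_le_mul_of_nonneg_left h6 (by positivity)
    linarith
  have hXC : X ^ 2 < γ ^ 2 + Δ ^ 2 := by
    have hid : (γ ^ 2 + Δ ^ 2) * ((α * X + γ * Y) ^ 2 + Δ ^ 2 * (X - Y) ^ 2 - Δ ^ 2 * (α + γ) ^ 2)
        = ((γ ^ 2 + Δ ^ 2) * Y + (α * γ - Δ ^ 2) * X) ^ 2
          + (X ^ 2 - (γ ^ 2 + Δ ^ 2)) * (Δ ^ 2 * (α + γ) ^ 2) := by ring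
    have h1 : (γ ^ 2 + Δ ^ 2) * ((α * X + γ * Y) ^ 2 + Δ ^ 2 * (X - Y) ^ 2
        - Δ ^ 2 * (α + γ) ^ 2) < 0 :=
      mul_neg_of_pos_of_neg (by positivity) (by linarith)
    rw [hid] at h1
    by_contra h
    rw [not_lt] at h
    have h2 : 0 ≤ (X ^ 2 - (γ ^ 2 + Δ ^ 2)) * (Δ ^ 2 * (α + γ) ^ 2) :=
      mul_nonneg (by linarith) (by positivity)
    linarith [sq_nonneg ((γ ^ 2 + Δ ^ 2) * Y + (α * γ - Δ ^ 2) * X)]
  have hYA : Y ^ 2 < α ^ 2 + Δ ^ 2 := by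
    have hid : (α ^ 2 + Δ ^ 2) * ((α * X + γ * Y) ^ 2 + Δ ^ 2 * (X - Y) ^ 2 - Δ ^ 2 * (α + γ) ^ 2)
        = ((α ^ 2 + Δ ^ 2) * X + (α * γ - Δ ^ 2) * Y) ^ 2
          + (Y ^ 2 - (α ^ 2 + Δ ^ 2)) * (Δ ^ 2 * (α + γ) ^ 2) := by ring
    have h1 : (α ^ 2 + Δ ^ 2) * ((α * X + γ * Y) ^ 2 + Δ ^ 2 * (X - Y) ^ 2
        - Δ ^ 2 * (α + γ) ^ 2) < 0 :=
      mul_neg_of_pos_of_neg (by positivity) (by linarith)
    rw [hid] at h1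
    by_contra h
    rw [not_lt] at h
    have h2 : 0 ≤ (Y ^ 2 - (α ^ 2 + Δ ^ 2)) * (Δ ^ 2 * (α + γ) ^ 2) :=
      mul_nonneg (by linarith) (by positivity)
    linarith [sq_nonneg ((α ^ 2 + Δ ^ 2) * X + (α * γ - Δ ^ 2) * Y)]
  clear_value α γ
  obtain ⟨u, hu⟩ : ∃ u : ℝ, u = -α - a + τ * X := ⟨_, rfl⟩
  obtain ⟨v, hv⟩ : ∃ v : ℝ, v = -γ + b + τ * Y := ⟨_, rfl⟩
  have G1' : τ * (α ^ 2 + Δ ^ 2) ≤ u * ((1 + τ ^ 2) * X - 2 * τ * α - τ * u) :=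
    aux_g1 (by rw [hu]; ring) hPα G1
  have G2' : τ * (γ ^ 2 + Δ ^ 2) ≤ v * ((1 + τ ^ 2) * Y - 2 * τ * γ - τ * v) := by
    refine aux_g1 (a := -b) (by rw [hv]; ring) hQγ ?_
    calc τ * ((-b) ^ 2 - Y ^ 2 + Δ ^ 2) + (1 - τ ^ 2) * (-b) * Y
        = τ * (b ^ 2 - Y ^ 2 + Δ ^ 2) - (1 - τ ^ 2) * b * Y := by ring
      _ ≤ _ := G2
  have hu1 : τ * ((α + u) ^ 2 + Δ ^ 2) ≤ (1 + τ ^ 2) * X * u := by linarith [G1']
  have hv1 : τ * ((γ + v) ^ 2 + Δ ^ 2) ≤ (1 + τ ^ 2) * Y * v := by linarith [G2']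
  have hu0 : 0 < u := by
    by_contra h
    rw [not_lt] at h
    have h1 : (1 + τ ^ 2) * X * u ≤ 0 := mul_nonpos_of_nonneg_of_nonpos (by positivity) h
    have h2 : 0 < τ * ((α + u) ^ 2 + Δ ^ 2) := by positivity
    linarith
  have hv0 : 0 < v := by
    by_contra h
    rw [not_lt] at h
    have h1 : (1 + τ ^ 2) * Y * v ≤ 0 := mul_nonpos_of_nonneg_of_nonpos (by positivity) h
    have h2 : 0 < τ * ((γ + v) ^ 2 + Δ ^ 2) := by positivity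
    linarith
  have hu2 : τ * (α ^ 2 + Δ ^ 2) / u ≤ (1 + τ ^ 2) * X - 2 * τ * α - τ * u := by
    rw [div_le_iff₀ hu0]
    linarith
  have hv2 : τ * (γ ^ 2 + Δ ^ 2) / v ≤ (1 + τ ^ 2) * Y - 2 * τ * γ - τ * v := by
    rw [div_le_iff₀ hv0]
    linarith
  -- Titu
  have hT : τ * (X + Y) ^ 2 / (u + v) ≤ τ * (α ^ 2 + Δ ^ 2) / u + τ * (γ ^ 2 + Δ ^ 2) / v := by
    have h1 : τ * Y ^ 2 / u ≤ τ * (α ^ 2 + Δ ^ 2) / u := by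
      apply div_le_div_of_nonneg_right _ hu0.le
      exact mul_le_mul_of_nonneg_left hYA.le hτ.le
    have h2 : τ * X ^ 2 / v ≤ τ * (γ ^ 2 + Δ ^ 2) / v := by
      apply div_le_div_of_nonneg_right _ hv0.le
      exact mul_le_mul_of_nonneg_left hXC.le hτ.le
    have h3 : τ * (X + Y) ^ 2 / (u + v) ≤ τ * Y ^ 2 / u + τ * X ^ 2 / v := by
      rw [div_add_div _ _ hu0.ne' hv0.ne', div_le_div_iff₀ (by positivity) (by positivity)]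
      have : 0 ≤ τ * (Y * v - X * u) ^ 2 := by positivity
      linarith [this]
    linarith
  have hw : u + v ≤ τ * (X + Y) := by rw [hu, hv]; linarith
  have hS : X + Y ≤ τ * (X + Y) ^ 2 / (u + v) := by
    rw [le_div_iff₀ (by linarith)]
    have : (X + Y) * (u + v) ≤ (X + Y) * (τ * (X + Y)) :=
      mul_le_mul_of_nonneg_left hw (by linarith)
    linarith
  have hfin : X + Y ≤ (1 + τ ^ 2) * (X + Y) - 2 * τ * (α + γ) - τ * (u + v) := by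
    linarith
  have hfin2 : 2 * τ * (α + γ) + τ * (u + v) ≤ τ * (τ * (X + Y)) := by linarith
  have hfin3 : 2 * (α + γ) + (u + v) ≤ τ * (X + Y) := by
    by_contra h
    rw [not_le] at h
    have := mul_lt_mul_of_pos_left h hτ
    linarith
  have huv : u + v = τ * (X + Y) - (α + γ) + (b - a) := by rw [hu, hv]; ring
  linarith

/-- The polynomial inequality behind the case `b < a`. -/
theorem keyT {τ S ε m g Δ2 : ℝ} (hτ : 0 < τ) (hτ1 : τ ≤ 1) (hS : 0 < S) (hε : ε ^ 2 < S ^ 2)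
    (hg : 2 * τ * S < g) (hΔ : 0 ≤ Δ2)
    (h3 : S * (m ^ 2 + g ^ 2 / 4 + Δ2) - ε * m * g ≤ (1 + τ ^ 2) * S * (S ^ 2 - ε ^ 2)) :
    0 < 2 * S * (g + 2 * τ * S) * ((1 + τ ^ 2) * (S * g + 2 * ε * m)
        + 2 * τ * (m ^ 2 + g ^ 2 / 4 + Δ2))
      - (1 + τ ^ 2) * ((g + 2 * τ * S) ^ 2 * Δ2 + S ^ 2 * ((g + 2 * τ * S) ^ 2 - 4 * ε ^ 2)) := by
  obtain ⟨T, hT⟩ : ∃ T : ℝ, T = 2 * S * (g + 2 * τ * S) * ((1 + τ ^ 2) * (S * g + 2 * ε * m)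
        + 2 * τ * (m ^ 2 + g ^ 2 / 4 + Δ2))
      - (1 + τ ^ 2) * ((g + 2 * τ * S) ^ 2 * Δ2
        + S ^ 2 * ((g + 2 * τ * S) ^ 2 - 4 * ε ^ 2)) := ⟨_, rfl⟩
  rw [← hT]
  obtain ⟨D, hD⟩ : ∃ D : ℝ, D = g + 2 * τ * S := ⟨_, rfl⟩
  obtain ⟨σ, hσ⟩ : ∃ σ : ℝ, σ = (1 + τ ^ 2) * S * (S ^ 2 - ε ^ 2) + ε * m * g
      - S * (m ^ 2 + g ^ 2 / 4 + Δ2) := ⟨_, rfl⟩
  obtain ⟨W, hW⟩ : ∃ W : ℝ, W = (1 + τ ^ 2) * g / 2 - τ * (1 - τ ^ 2) * S := ⟨_, rfl⟩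
  obtain ⟨K, hK⟩ : ∃ K : ℝ, K = 2 * (1 + τ ^ 2) * S ^ 2 + 2 * τ * g * S
      - (1 + τ ^ 2) * g * D / 2 := ⟨_, rfl⟩
  have hτ2 : τ ^ 2 ≤ 1 := pow_le_one₀ hτ.le hτ1
  have hτS : 0 < τ * S := by positivity
  have hg0 : 0 < g := by linarith
  have hD4 : 4 * τ * S < D := by rw [hD]; linarith
  have hD0 : 0 < D := by linarith
  have hσ0 : 0 ≤ σ := by rw [hσ]; linarith
  have hid : (1 + τ ^ 2) * S * (S * T - D * ((1 + τ ^ 2) * D - 4 * S * τ) * σ)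
      = (1 + τ ^ 2) ^ 2 * D ^ 2 * S ^ 2 * (g ^ 2 / 4 - τ ^ 2 * S ^ 2)
        + ((1 + τ ^ 2) * D * m * S + K * ε) ^ 2
        + ((1 + τ ^ 2) ^ 2 * S ^ 2 * D * (D * (1 + τ ^ 2) - 4 * τ * S)
          + g * W * (4 * (1 + τ ^ 2) * S ^ 2 - g * W)) * ε ^ 2 := by
    rw [hT, hσ, hW, hK, hD]; ring
  -- bound on `g`
  have hgb : g ^ 2 ≤ 4 * (1 + τ ^ 2) * S ^ 2 := by
    have h1 : S * (S * m ^ 2 - ε * m * g + ε ^ 2 * g ^ 2 / (4 * S))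
        = (S * m - ε * g / 2) ^ 2 := by field_simp; ring
    have h2 : 0 ≤ S * m ^ 2 - ε * m * g + ε ^ 2 * g ^ 2 / (4 * S) := by
      by_contra h
      rw [not_le] at h
      have := mul_neg_of_pos_of_neg hS h
      rw [h1] at this
      linarith [sq_nonneg (S * m - ε * g / 2)]
    have h4 : S * g ^ 2 / 4 - ε ^ 2 * g ^ 2 / (4 * S) ≤ (1 + τ ^ 2) * S * (S ^ 2 - ε ^ 2) := by
      have : 0 ≤ S * Δ2 := by positivity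
      linarith
    have h5 : S * g ^ 2 / 4 - ε ^ 2 * g ^ 2 / (4 * S) = g ^ 2 * (S ^ 2 - ε ^ 2) / (4 * S) := by
      field_simp
    rw [h5, div_le_iff₀ (by positivity)] at h4
    have h6 : g ^ 2 * (S ^ 2 - ε ^ 2) ≤ 4 * (1 + τ ^ 2) * S ^ 2 * (S ^ 2 - ε ^ 2) := by
      linarith
    exact le_of_mul_le_mul_right h6 (by linarith)
  have hW0 : 0 ≤ W := by
    rw [hW]
    have h1 : (1 + τ ^ 2) * (2 * τ * S) ≤ (1 + τ ^ 2) * g :=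
      mul_le_mul_of_nonneg_left hg.le (by positivity)
    have h2 : 0 ≤ τ ^ 2 * (τ * S) := by positivity
    linarith
  have hWg : g * W ≤ (1 + τ ^ 2) * g ^ 2 / 2 := by
    rw [hW]
    have h1 : 0 ≤ g * (τ * (1 - τ ^ 2) * S) := by
      have : 0 ≤ 1 - τ ^ 2 := by linarith
      positivity
    linarith
  have hgW : g * W ≤ 4 * (1 + τ ^ 2) * S ^ 2 := by
    have h1 : (1 + τ ^ 2) * g ^ 2 ≤ (1 + τ ^ 2) * (4 * (1 + τ ^ 2) * S ^ 2) :=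
      mul_le_mul_of_nonneg_left hgb (by positivity)
    have h2 : (1 + τ ^ 2) * ((1 + τ ^ 2) * S ^ 2) ≤ 2 * ((1 + τ ^ 2) * S ^ 2) := by
      apply mul_le_mul_of_nonneg_right _ (by positivity)
      linarith
    linarith
  have hdisc : 0 ≤ (1 + τ ^ 2) ^ 2 * S ^ 2 * D * (D * (1 + τ ^ 2) - 4 * τ * S)
          + g * W * (4 * (1 + τ ^ 2) * S ^ 2 - g * W) := by
    have h1 : 0 ≤ D * (1 + τ ^ 2) - 4 * τ * S := by
      have : 0 ≤ D * τ ^ 2 := by positivity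
      linarith
    have h2 : 0 ≤ 4 * (1 + τ ^ 2) * S ^ 2 - g * W := by linarith
    have h3 : 0 ≤ g * W := mul_nonneg hg0.le hW0
    have h4 : 0 ≤ (1 + τ ^ 2) ^ 2 * S ^ 2 * D * (D * (1 + τ ^ 2) - 4 * τ * S) :=
      mul_nonneg (by positivity) h1
    have h5 := mul_nonneg h3 h2
    linarith
  have hfirst : 0 < (1 + τ ^ 2) ^ 2 * D ^ 2 * S ^ 2 * (g ^ 2 / 4 - τ ^ 2 * S ^ 2) := by
    apply mul_pos (by positivity)
    have : (2 * τ * S) ^ 2 < g ^ 2 := pow_lt_pow_left₀ hg (by positivity) (by norm_num)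
    linarith
  have hpos : 0 < (1 + τ ^ 2) * S * (S * T - D * ((1 + τ ^ 2) * D - 4 * S * τ) * σ) := by
    rw [hid]
    have h1 := mul_nonneg hdisc (sq_nonneg ε)
    have h2 := sq_nonneg ((1 + τ ^ 2) * D * m * S + K * ε)
    linarith
  have hpos2 : 0 < S * T - D * ((1 + τ ^ 2) * D - 4 * S * τ) * σ :=
    (mul_pos_iff_of_pos_left (by positivity)).mp hpos
  have h7 : 0 ≤ D * ((1 + τ ^ 2) * D - 4 * S * τ) * σ := by
    apply mul_nonneg (mul_nonneg hD0.le _) hσ0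
    have : 0 ≤ D * τ ^ 2 := by positivity
    linarith
  have h8 : 0 < S * T := by linarith
  exact (mul_pos_iff_of_pos_left hS).mp h8

/-- The case `b < a` of the pair inequality. -/
theorem pair_pos {τ X Y a b Δ P1 Q1 : ℝ} (hτ : 0 < τ) (hX : 0 < X) (hY : 0 < Y)
    (G1 : τ * (a ^ 2 - X ^ 2 + Δ ^ 2) + (1 - τ ^ 2) * a * X ≤ (1 + τ ^ 2) * (Δ * P1))
    (G2 : τ * (b ^ 2 - Y ^ 2 + Δ ^ 2) - (1 - τ ^ 2) * b * Y ≤ (1 + τ ^ 2) * (Δ * Q1))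
    (D : (X - Y) ^ 2 + (P1 + Q1) ^ 2 < (a - b) ^ 2)
    (hab : b < a) (O : 2 * τ * (X + Y) < (1 - τ ^ 2) * (a - b)) :
    a - b < Δ * P1 / X + Δ * Q1 / Y := by
  by_contra hcon
  rw [not_lt] at hcon
  have hτ2 : 0 < 1 - τ ^ 2 := by
    by_contra h
    rw [not_lt] at h
    have h1 : (1 - τ ^ 2) * (a - b) ≤ 0 := mul_nonpos_of_nonpos_of_nonneg h (by linarith)
    have h2 : 0 < 2 * τ * (X + Y) := by positivity
    linarith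
  have hτ1 : τ ≤ 1 := by
    by_contra h
    rw [not_le] at h
    have : 1 < τ ^ 2 := one_lt_pow₀ h (by norm_num)
    linarith
  obtain ⟨P, hP⟩ : ∃ P : ℝ, P = Δ * P1 := ⟨_, rfl⟩
  obtain ⟨Q, hQ⟩ : ∃ Q : ℝ, Q = Δ * Q1 := ⟨_, rfl⟩
  rw [← hP] at G1 hcon
  rw [← hQ] at G2 hcon
  have hcon2 : Y * P + X * Q ≤ X * Y * (a - b) := by
    have h1 : X * Y * (P / X + Q / Y) = Y * P + X * Q := by field_simp
    rw [← h1]
    exact mul_le_mul_of_nonneg_left hcon (by positivity)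
  obtain ⟨a', ha'⟩ : ∃ a' : ℝ, a' = a - τ * X := ⟨_, rfl⟩
  obtain ⟨b', hb'⟩ : ∃ b' : ℝ, b' = b + τ * Y := ⟨_, rfl⟩
  have G1' : τ * (a' ^ 2 + Δ ^ 2) ≤ (1 + τ ^ 2) * (P - a' * X) := by
    rw [ha']; linarith
  have G2' : τ * (b' ^ 2 + Δ ^ 2) ≤ (1 + τ ^ 2) * (Q + b' * Y) := by
    rw [hb']; linarith
  obtain ⟨S, hS⟩ : ∃ S : ℝ, S = (X + Y) / 2 := ⟨_, rfl⟩
  obtain ⟨ε, hε⟩ : ∃ ε : ℝ, ε = (X - Y) / 2 := ⟨_, rfl⟩
  obtain ⟨m, hm⟩ : ∃ m : ℝ, m = (a' + b') / 2 := ⟨_, rfl⟩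
  obtain ⟨g, hg⟩ : ∃ g : ℝ, g = a' - b' := ⟨_, rfl⟩
  have hDg : a - b = g + 2 * τ * S := by rw [hg, ha', hb', hS]; ring
  have hX' : X = S + ε := by rw [hS, hε]; ring
  have hY' : Y = S - ε := by rw [hS, hε]; ring
  have ha2 : a' = m + g / 2 := by rw [hm, hg]; ring
  have hb2 : b' = m - g / 2 := by rw [hm, hg]; ring
  have hS0 : 0 < S := by rw [hS]; positivity
  have hgS : 2 * τ * S < g := by
    have h1 : 0 < τ ^ 2 * (a - b) := mul_pos (by positivity) (by linarith)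
    rw [hg, ha', hb', hS]
    linarith
  have hεS : ε ^ 2 < S ^ 2 := by
    have : 0 < X * Y := by positivity
    rw [hX', hY'] at this
    linarith
  have h3 : S * (m ^ 2 + g ^ 2 / 4 + Δ ^ 2) - ε * m * g ≤ (1 + τ ^ 2) * S * (S ^ 2 - ε ^ 2) := by
    have e1 : τ * (Y * (a' ^ 2 + Δ ^ 2) + X * (b' ^ 2 + Δ ^ 2))
        ≤ τ * ((1 + τ ^ 2) * (X * Y) * (X + Y)) := by
      have f1 := mul_le_mul_of_nonneg_left G1' hY.le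
      have f2 := mul_le_mul_of_nonneg_left G2' hX.le
      have f3 := mul_le_mul_of_nonneg_left hcon2 (show (0 : ℝ) ≤ 1 + τ ^ 2 by positivity)
      have f4 : a - b = (a' - b') + τ * (X + Y) := by rw [ha', hb']; ring
      rw [f4] at f3
      linarith
    have e2 := le_of_mul_le_mul_left e1 hτ
    rw [ha2, hb2, hX', hY'] at e2
    linarith
  have hT := keyT hτ hτ1 hS0 hεS hgS (sq_nonneg Δ) h3
  rw [← hDg] at hT
  obtain ⟨N, hN⟩ : ∃ N : ℝ, N = a - b := ⟨_, rfl⟩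
  rw [← hN] at hT D
  have hN0 : 0 < N := by rw [hN]; linarith
  have hL : (1 + τ ^ 2) * (S * g + 2 * ε * m) + 2 * τ * (m ^ 2 + g ^ 2 / 4 + Δ ^ 2)
      ≤ (1 + τ ^ 2) * (P + Q) := by
    have e1 : τ * (a' ^ 2 + Δ ^ 2) + τ * (b' ^ 2 + Δ ^ 2)
        ≤ (1 + τ ^ 2) * (P - a' * X) + (1 + τ ^ 2) * (Q + b' * Y) := add_le_add G1' G2'
    rw [ha2, hb2, hX', hY'] at e1
    linarith
  have hL2 := mul_le_mul_of_nonneg_left hL (show (0 : ℝ) ≤ 2 * S * N by positivity)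
  have hfin : (1 + τ ^ 2) * (N ^ 2 * Δ ^ 2 + S ^ 2 * (N ^ 2 - 4 * ε ^ 2))
      < (1 + τ ^ 2) * (2 * S * N * (P + Q)) := by linarith
  have hfin2 : N ^ 2 * Δ ^ 2 + S ^ 2 * (N ^ 2 - 4 * ε ^ 2) < 2 * S * N * (P + Q) :=
    lt_of_mul_lt_mul_left hfin (by positivity)
  obtain ⟨B, hB⟩ : ∃ B : ℝ, B = N ^ 2 - 4 * ε ^ 2 := ⟨_, rfl⟩
  have hXY : (X - Y) ^ 2 = 4 * ε ^ 2 := by rw [hε]; ring
  have hB1 : (P1 + Q1) ^ 2 < B := by rw [hB]; linarith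
  have hB0 : 0 < B := lt_of_le_of_lt (sq_nonneg _) hB1
  have hPQ : (P + Q) ^ 2 ≤ Δ ^ 2 * B := by
    have : (P + Q) ^ 2 = Δ ^ 2 * (P1 + Q1) ^ 2 := by rw [hP, hQ]; ring
    rw [this]
    exact mul_le_mul_of_nonneg_left hB1.le (by positivity)
  rw [← hB] at hfin2
  have hLpos : 0 ≤ N ^ 2 * Δ ^ 2 + S ^ 2 * B := by positivity
  have hsq : (N ^ 2 * Δ ^ 2 + S ^ 2 * B) ^ 2 < (2 * S * N * (P + Q)) ^ 2 :=
    pow_lt_pow_left₀ hfin2 hLpos (by norm_num)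
  have h9 := mul_le_mul_of_nonneg_left hPQ (show (0 : ℝ) ≤ 4 * S ^ 2 * N ^ 2 by positivity)
  have h10 := sq_nonneg (N ^ 2 * Δ ^ 2 - S ^ 2 * B)
  linarith

/-- The pair inequality. -/
theorem pair_ineq {τ X Y a b Δ P1 Q1 : ℝ} (hτ : 0 < τ) (hX : 0 < X) (hY : 0 < Y) (hΔ : 0 ≤ Δ)
    (G1 : τ * (a ^ 2 - X ^ 2 + Δ ^ 2) + (1 - τ ^ 2) * a * X ≤ (1 + τ ^ 2) * (Δ * P1))
    (G2 : τ * (b ^ 2 - Y ^ 2 + Δ ^ 2) - (1 - τ ^ 2) * b * Y ≤ (1 + τ ^ 2) * (Δ * Q1))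
    (D : (X - Y) ^ 2 + (P1 + Q1) ^ 2 < (a - b) ^ 2)
    (O : 0 < (a - b) * ((1 - τ ^ 2) * (a - b) - 2 * τ * (X + Y))) :
    a - b < Δ * P1 / X + Δ * Q1 / Y := by
  rcases lt_trichotomy a b with h | h | h
  · exact pair_neg hτ hX hY hΔ G1 G2 D h
  · exfalso; rw [h] at O; simp at O
  · refine pair_pos hτ hX hY G1 G2 D h ?_
    have := (mul_pos_iff_of_pos_left (sub_pos.mpr h)).mp O
    linarith

end Pool.Agent.H44.Danzer
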