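import Mathlib
import Pool.Agent.H44.Danzer.Pair

set_option autoImplicit false

open scoped InnerProductSpace

namespace Pool.Agent.H44.Danzer

variable {V : Type*} [NormedAddCommGroup V] [InnerProductSpace ℝ V]

/-- squared distance from `c` to the line through `p` with unit direction `w` -/
noncomputable def fd (c p w : V) : ℝ := ‖c - p‖ ^ 2 - ⟪c - p, w⟫_ℝ ^ 2

/-- the component of `c - p` orthogonal to the unit vector `w` -/
noncomputable def zc (c p w : V) : V := (c - p) - ⟪c - p, w⟫_ℝ • w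

theorem inner_zc_self {w : V} (hw : ‖w‖ = 1) (c p : V) : ⟪zc c p w, w⟫_ℝ = 0 := by
  unfold zc
  rw [inner_sub_left, inner_smul_left, real_inner_self_eq_norm_sq, hw]
  simp

theorem inner_zc_of_orth {w e : V} (he : ⟪w, e⟫_ℝ = 0) (c p : V) :
    ⟪zc c p w, e⟫_ℝ = ⟪c - p, e⟫_ℝ := by
  unfold zc
  rw [inner_sub_left, inner_smul_left, he]
  simp

theorem norm_zc_sq {w : V} (hw : ‖w‖ = 1) (c p : V) : ‖zc c p w‖ ^ 2 = fd c p w := by
  unfold fd zc
  rw [@norm_sub_sq_real, norm_smul, inner_smul_right, hw]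
  rw [mul_one, Real.norm_eq_abs, sq_abs]
  ring

theorem fd_nonneg {w : V} (hw : ‖w‖ = 1) (c p : V) : 0 ≤ fd c p w := by
  rw [← norm_zc_sq hw]; positivity

theorem fd_shift {w : V} (hw : ‖w‖ = 1) (c p : V) (t : ℝ) : fd c (p + t • w) w = fd c p w := by
  unfold fd
  have h1 : c - (p + t • w) = (c - p) - t • w := by abel
  rw [h1]
  obtain ⟨x, hx⟩ : ∃ x, x = c - p := ⟨_, rfl⟩
  rw [← hx, @norm_sub_sq_real, inner_sub_left, inner_smul_left, inner_smul_right, norm_smul, hw,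
    real_inner_self_eq_norm_sq, hw]
  simp only [Real.norm_eq_abs, mul_one, sq_abs, conj_trivial]
  ring

theorem zc_shift {w : V} (hw : ‖w‖ = 1) (c p : V) (t : ℝ) : zc c (p + t • w) w = zc c p w := by
  unfold zc
  have h1 : c - (p + t • w) = (c - p) - t • w := by abel
  rw [h1]
  obtain ⟨x, hx⟩ : ∃ x, x = c - p := ⟨_, rfl⟩
  rw [← hx, inner_sub_left, inner_smul_left, real_inner_self_eq_norm_sq, hw]
  simp only [conj_trivial, one_pow, mul_one, sub_smul]
  abel

theorem fd_neg (c p w : V) : fd c p (-w) = fd c p w := by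
  unfold fd; rw [inner_neg_right]; ring

/-- Pythagoras for two points and a line. -/
theorem norm_sub_sq_decomp {w : V} (hw : ‖w‖ = 1) (x y p : V) :
    ‖x - y‖ ^ 2 = (⟪x - p, w⟫_ℝ - ⟪y - p, w⟫_ℝ) ^ 2 + ‖zc x p w - zc y p w‖ ^ 2 := by
  have h1 : x - y = (⟪x - p, w⟫_ℝ - ⟪y - p, w⟫_ℝ) • w + (zc x p w - zc y p w) := by
    unfold zc; rw [sub_smul]; abel
  have h2 : ⟪(⟪x - p, w⟫_ℝ - ⟪y - p, w⟫_ℝ) • w, zc x p w - zc y p w⟫_ℝ = 0 := by
    have h3 : ⟪w, zc x p w - zc y p w⟫_ℝ = 0 := by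
      rw [real_inner_comm, inner_sub_left, inner_zc_self hw, inner_zc_self hw, sub_zero]
    rw [inner_smul_left, h3, mul_zero]
  conv_lhs => rw [h1]
  rw [@norm_add_sq_real, h2, norm_smul, hw]
  simp only [Real.norm_eq_abs, mul_one, sq_abs]
  ring

/-- Bessel for two orthogonal vectors of norm one or zero. -/
theorem bessel_two {e n w : V} (he : ‖e‖ = 1) (hn : ‖n‖ = 1 ∨ n = 0) (hen : ⟪e, n⟫_ℝ = 0) :
    ⟪w, e⟫_ℝ ^ 2 + ⟪w, n⟫_ℝ ^ 2 ≤ ‖w‖ ^ 2 := by
  have h1 : 0 ≤ ‖w - ⟪w, e⟫_ℝ • e - ⟪w, n⟫_ℝ • n‖ ^ 2 := by positivity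
  have h2 : ‖w - ⟪w, e⟫_ℝ • e - ⟪w, n⟫_ℝ • n‖ ^ 2
      = ‖w‖ ^ 2 - ⟪w, e⟫_ℝ ^ 2 - ⟪w, n⟫_ℝ ^ 2 := by
    rw [@norm_sub_sq_real, @norm_sub_sq_real, inner_sub_left, inner_smul_left, inner_smul_right,
      inner_smul_right, inner_smul_right, norm_smul, norm_smul, hen, he]
    rcases hn with hn | hn
    · rw [hn]
      simp only [Real.norm_eq_abs, mul_one, sq_abs, conj_trivial, mul_zero, sub_zero]
      ring
    · rw [hn]; simp; ring
  linarith

/-- The core of the uniqueness of critical lines: skew or crossing lines. -/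
theorem crit_core {ι : Type*} [Fintype ι] [Nonempty ι] (c : ι → V) (lam : ι → ℝ)
    (hlam : ∀ i, 0 < lam i) {p u q v : V} (hu : ‖u‖ = 1) (hv : ‖v‖ = 1) {ρ : ℝ}
    (hρ : 0 < ρ) (hact : ∀ i, fd (c i) p u = ρ ^ 2)
    (k1 : ∑ i, lam i • zc (c i) p u = 0)
    (k2 : ∑ i, (lam i * ⟪c i - p, u⟫_ℝ) • zc (c i) p u = 0)
    (hq : ∀ i, fd (c i) q v ≤ ρ ^ 2)
    (hsep : ∀ i j, i ≠ j → 2 * ρ < ‖c i - c j‖)
    (hord : ∀ i j, i ≠ j → 0 < ⟪c i - c j, u⟫_ℝ * ⟪c i - c j, v⟫_ℝ)
    (hκ1 : -1 < ⟪u, v⟫_ℝ) (hκ2 : ⟪u, v⟫_ℝ < 1)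
    (hn1 : ⟪u, q - p⟫_ℝ = 0) (hn2 : ⟪v, q - p⟫_ℝ = 0) : False := by
  classical
  obtain ⟨κ, hκ⟩ : ∃ κ : ℝ, κ = ⟪u, v⟫_ℝ := ⟨_, rfl⟩
  rw [← hκ] at hκ1 hκ2
  obtain ⟨n, hn⟩ : ∃ n : V, n = q - p := ⟨_, rfl⟩
  rw [← hn] at hn1 hn2
  have hs2 : 0 < 1 - κ ^ 2 := by nlinarith
  obtain ⟨s, hs⟩ : ∃ s : ℝ, s = Real.sqrt (1 - κ ^ 2) := ⟨_, rfl⟩
  have hs0 : 0 < s := by rw [hs]; exact Real.sqrt_pos.mpr hs2
  have hss : s ^ 2 = 1 - κ ^ 2 := by rw [hs]; exact Real.sq_sqrt hs2.le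
  obtain ⟨e, he⟩ : ∃ e : V, e = s⁻¹ • (v - κ • u) := ⟨_, rfl⟩
  have hve : v = κ • u + s • e := by
    rw [he, smul_smul, mul_inv_cancel₀ hs0.ne', one_smul]; abel
  have hue : ⟪u, e⟫_ℝ = 0 := by
    rw [he, inner_smul_right, inner_sub_right, inner_smul_right, real_inner_self_eq_norm_sq, hu,
      ← hκ]
    simp
  have hen : ⟪e, n⟫_ℝ = 0 := by
    rw [he, inner_smul_left, inner_sub_left, inner_smul_left, hn1, hn2]
    simp
  have hee : ‖e‖ = 1 := by
    have h1 : ‖e‖ ^ 2 = 1 := by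
      have h2 : ‖v‖ ^ 2 = κ ^ 2 + s ^ 2 * ‖e‖ ^ 2 := by
        rw [hve, @norm_add_sq_real, inner_smul_left, inner_smul_right, hue, norm_smul, norm_smul,
          hu]
        simp only [Real.norm_eq_abs, mul_one, sq_abs, conj_trivial, mul_zero, mul_pow, add_zero]
      rw [hv, hss] at h2
      have h3 : (1 - κ ^ 2) * (‖e‖ ^ 2 - 1) = 0 := by linarith
      rcases mul_eq_zero.mp h3 with h | h
      · linarith
      · linarith
    have := norm_nonneg e
    nlinarith
  obtain ⟨τ, hτ⟩ : ∃ τ : ℝ, τ = s / (1 + κ) := ⟨_, rfl⟩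
  have h1κ : 0 < 1 + κ := by linarith
  have hτ0 : 0 < τ := by rw [hτ]; positivity
  have hτ2 : τ ^ 2 = (1 - κ) / (1 + κ) := by
    rw [hτ, div_pow, hss]; field_simp; ring
  have hτc : (1 + τ ^ 2) * κ = 1 - τ ^ 2 := by rw [hτ2]; field_simp; ring
  have hτs : (1 + τ ^ 2) * s = 2 * τ := by rw [hτ2, hτ]; field_simp; ring
  obtain ⟨Δ, hΔ⟩ : ∃ Δ : ℝ, Δ = ‖n‖ / s := ⟨_, rfl⟩
  have hΔ0 : 0 ≤ Δ := by rw [hΔ]; positivity
  have hnΔ : ‖n‖ = s * Δ := by rw [hΔ]; field_simp
  -- coordinates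
  obtain ⟨a, ha⟩ : ∃ a : ι → ℝ, ∀ i, a i = ⟪c i - p, u⟫_ℝ := ⟨_, fun _ => rfl⟩
  obtain ⟨x, hx⟩ : ∃ x : ι → ℝ, ∀ i, x i = ⟪c i - p, e⟫_ℝ := ⟨_, fun _ => rfl⟩
  obtain ⟨y, hy⟩ : ∃ y : ι → ℝ, ∀ i, y i = ⟪c i - p, n⟫_ℝ := ⟨_, fun _ => rfl⟩
  have hzx : ∀ i, ⟪zc (c i) p u, e⟫_ℝ = x i := fun i => by
    rw [inner_zc_of_orth hue, hx]
  have hzy : ∀ i, ⟪zc (c i) p u, n⟫_ℝ = y i := fun i => by
    rw [inner_zc_of_orth hn1, hy]
  have hG : ∀ i, a i ^ 2 + ‖n‖ ^ 2 - (κ * a i + s * x i) ^ 2 ≤ 2 * y i := by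
    intro i
    have h1 := hact i
    have h2 := hq i
    have h3 : c i - q = (c i - p) - n := by rw [hn]; abel
    have h4 : ⟪c i - p, v⟫_ℝ = κ * a i + s * x i := by
      rw [hve, inner_add_right, inner_smul_right, inner_smul_right, ha, hx]
    have h5 : ⟪(c i - p) - n, v⟫_ℝ = κ * a i + s * x i := by
      rw [inner_sub_left, h4, real_inner_comm, hn2, sub_zero]
    unfold fd at h1 h2
    rw [h3, h5, @norm_sub_sq_real, ← hy] at h2
    rw [← ha] at h1
    linarith
  have s1 : ∑ i, lam i * x i = 0 := by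
    have h := congrArg (fun w => ⟪w, e⟫_ℝ) k1
    simp only [sum_inner, inner_smul_left, conj_trivial, inner_zero_left, hzx] at h
    exact h
  have s2 : ∑ i, lam i * y i = 0 := by
    have h := congrArg (fun w => ⟪w, n⟫_ℝ) k1
    simp only [sum_inner, inner_smul_left, conj_trivial, inner_zero_left, hzy] at h
    exact h
  have s3 : ∑ i, lam i * a i * x i = 0 := by
    have h := congrArg (fun w => ⟪w, e⟫_ℝ) k2
    simp only [sum_inner, inner_smul_left, conj_trivial, inner_zero_left, hzx, ← ha] at h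
    exact h
  -- the pair inequality
  have hpair : ∀ i j, x i < 0 → 0 < x j → y i / (s * x i) + a i < y j / (s * x j) + a j := by
    intro i j hi hj
    have hij : i ≠ j := by rintro rfl; linarith
    obtain ⟨nh, hnh, hnh1, hnh2⟩ : ∃ nh : V, n = ‖n‖ • nh ∧ (‖nh‖ = 1 ∨ nh = 0) ∧
        ⟪e, nh⟫_ℝ = 0 := by
      by_cases h0 : n = 0
      · exact ⟨0, by simp [h0], Or.inr rfl, by simp⟩
      · refine ⟨‖n‖⁻¹ • n, ?_, Or.inl ?_, ?_⟩
        · rw [smul_smul, mul_inv_cancel₀ (norm_ne_zero_iff.mpr h0), one_smul]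
        · rw [norm_smul, norm_inv, norm_norm, inv_mul_cancel₀ (norm_ne_zero_iff.mpr h0)]
        · rw [inner_smul_right, hen, mul_zero]
    obtain ⟨P1, hP1⟩ : ∃ P1 : ℝ, P1 = ⟪zc (c i) p u, nh⟫_ℝ := ⟨_, rfl⟩
    obtain ⟨Q1, hQ1⟩ : ∃ Q1 : ℝ, Q1 = ⟪zc (c j) p u, nh⟫_ℝ := ⟨_, rfl⟩
    have hyi : y i = s * (Δ * P1) := by
      rw [← hzy, hP1, ← mul_assoc, ← hnΔ, ← inner_smul_right, ← hnh]
    have hyj : y j = s * (Δ * Q1) := by
      rw [← hzy, hQ1, ← mul_assoc, ← hnΔ, ← inner_smul_right, ← hnh]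
    have key := pair_ineq (τ := τ) (X := -x i) (Y := x j) (a := a i) (b := a j) (Δ := Δ)
      (P1 := P1) (Q1 := Q1) hτ0 (by linarith) hj hΔ0 ?_ ?_ ?_ ?_
    · have e1 : Δ * P1 / -x i = -(y i / (s * x i)) := by
        rw [hyi]
        field_simp
      have e2 : Δ * Q1 / x j = y j / (s * x j) := by
        rw [hyj]
        field_simp
      rw [e1, e2] at key
      linarith
    · -- G1
      have h := hG i
      rw [hnΔ, hyi] at h
      have h2 : s * (s * (a i ^ 2 - x i ^ 2 + Δ ^ 2) - 2 * κ * a i * x i)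
          ≤ s * (2 * (Δ * P1)) := by
        have : κ ^ 2 = 1 - s ^ 2 := by linarith
        linarith [this, mul_comm (a i ^ 2) (κ ^ 2), congrArg (fun t => t * a i ^ 2) this]
      have h3 := le_of_mul_le_mul_left h2 hs0
      have h4 := mul_le_mul_of_nonneg_left h3 (show (0 : ℝ) ≤ 1 + τ ^ 2 by positivity)
      have h5 : (1 + τ ^ 2) * (s * (a i ^ 2 - x i ^ 2 + Δ ^ 2) - 2 * κ * a i * x i)
          = ((1 + τ ^ 2) * s) * (a i ^ 2 - x i ^ 2 + Δ ^ 2)
            - 2 * ((1 + τ ^ 2) * κ) * a i * x i := by ring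
      rw [h5, hτs, hτc] at h4
      linarith
    · -- G2
      have h := hG j
      rw [hnΔ, hyj] at h
      have h2 : s * (s * (a j ^ 2 - x j ^ 2 + Δ ^ 2) - 2 * κ * a j * x j)
          ≤ s * (2 * (Δ * Q1)) := by
        have : κ ^ 2 = 1 - s ^ 2 := by linarith
        linarith [this, mul_comm (a j ^ 2) (κ ^ 2), congrArg (fun t => t * a j ^ 2) this]
      have h3 := le_of_mul_le_mul_left h2 hs0
      have h4 := mul_le_mul_of_nonneg_left h3 (show (0 : ℝ) ≤ 1 + τ ^ 2 by positivity)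
      have h5 : (1 + τ ^ 2) * (s * (a j ^ 2 - x j ^ 2 + Δ ^ 2) - 2 * κ * a j * x j)
          = ((1 + τ ^ 2) * s) * (a j ^ 2 - x j ^ 2 + Δ ^ 2)
            - 2 * ((1 + τ ^ 2) * κ) * a j * x j := by ring
      rw [h5, hτs, hτc] at h4
      linarith
    · -- separation
      have h1 := norm_sub_sq_decomp hu (c i) (c j) p
      rw [← ha, ← ha] at h1
      have h2 : (2 * ρ) ^ 2 < ‖c i - c j‖ ^ 2 :=
        pow_lt_pow_left₀ (hsep i j hij) (by positivity) (by norm_num)
      have h3 : ‖zc (c i) p u‖ ^ 2 = ρ ^ 2 := by rw [norm_zc_sq hu, hact]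
      have h4 : ‖zc (c j) p u‖ ^ 2 = ρ ^ 2 := by rw [norm_zc_sq hu, hact]
      have h5 : ‖zc (c i) p u - zc (c j) p u‖ ^ 2 + ‖zc (c i) p u + zc (c j) p u‖ ^ 2
          = 4 * ρ ^ 2 := by
        rw [@norm_sub_sq_real, @norm_add_sq_real, h3, h4]; ring
      have h6 := bessel_two (w := zc (c i) p u + zc (c j) p u) hee hnh1 hnh2
      rw [inner_add_left, inner_add_left, hzx, hzx, ← hP1, ← hQ1] at h6
      have h7 : (-x i - x j) ^ 2 = (x i + x j) ^ 2 := by ring
      rw [h7]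
      nlinarith
    · -- order
      have h1 := hord i j hij
      have h2 : ⟪c i - c j, u⟫_ℝ = a i - a j := by
        rw [ha, ha, ← inner_sub_left]; congr 1; abel
      have h3 : ⟪c i - c j, e⟫_ℝ = x i - x j := by
        rw [hx, hx, ← inner_sub_left]; congr 1; abel
      have h4 : ⟪c i - c j, v⟫_ℝ = κ * (a i - a j) + s * (x i - x j) := by
        rw [hve, inner_add_right, inner_smul_right, inner_smul_right, h2, h3]
      rw [h2, h4] at h1
      have h5 : (a i - a j) * ((1 - τ ^ 2) * (a i - a j) - 2 * τ * (-x i + x j))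
          = (1 + τ ^ 2) * ((a i - a j) * (κ * (a i - a j) + s * (x i - x j))) := by
        rw [← hτc, ← hτs]; ring
      rw [h5]
      positivity
  by_cases hex : ∃ j, 0 < x j
  · obtain ⟨j0, hj0⟩ := hex
    -- some negative coordinate
    have hneg : ∃ i, x i < 0 := by
      by_contra h
      rw [not_exists] at h
      have h1 : ∀ i ∈ Finset.univ, 0 ≤ lam i * x i := fun i _ =>
        mul_nonneg (hlam i).le (not_lt.mp (h i))
      have h2 := (Finset.sum_eq_zero_iff_of_nonneg h1).mp s1 j0 (Finset.mem_univ _)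
      have h3 : 0 < lam j0 * x j0 := mul_pos (hlam j0) hj0
      linarith
    obtain ⟨i0, hi0⟩ := hneg
    obtain ⟨i1, hi1, hmax⟩ := Finset.exists_max_image (Finset.univ.filter fun i => x i < 0)
      (fun i => y i / (s * x i) + a i) ⟨i0, by simp [hi0]⟩
    simp only [Finset.mem_filter, Finset.mem_univ, true_and] at hi1 hmax
    obtain ⟨β, hβ⟩ : ∃ β : ℝ, β = y i1 / (s * x i1) + a i1 := ⟨_, rfl⟩
    rw [← hβ] at hmax
    have hnn : ∀ i ∈ Finset.univ, 0 ≤ lam i * (y i + s * a i * x i - β * s * x i) := by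
      intro i _
      apply mul_nonneg (hlam i).le
      rcases lt_trichotomy (x i) 0 with h | h | h
      · have h1 := hmax i h
        have h2 : y i + s * a i * x i - β * s * x i
            = (s * -x i) * (β - (y i / (s * x i) + a i)) := by
          have hxi : x i ≠ 0 := h.ne
          field_simp
          ring
        rw [h2]
        apply mul_nonneg (mul_nonneg hs0.le (by linarith)) (by linarith)
      · have h1 := hG i
        rw [h] at h1 ⊢
        have h2 : 0 ≤ (1 - κ ^ 2) * a i ^ 2 := by positivity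
        have h3 : 0 ≤ ‖n‖ ^ 2 := by positivity
        linarith
      · have h1 := hpair i1 i hi1 h
        rw [← hβ] at h1
        have h2 : y i + s * a i * x i - β * s * x i
            = (s * x i) * ((y i / (s * x i) + a i) - β) := by
          field_simp
        rw [h2]
        apply mul_nonneg (mul_nonneg hs0.le h.le) (by linarith)
    have hsum : ∑ i, lam i * (y i + s * a i * x i - β * s * x i) = 0 := by
      have h1 : ∀ i, lam i * (y i + s * a i * x i - β * s * x i)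
          = lam i * y i + s * (lam i * a i * x i) - β * s * (lam i * x i) := fun i => by ring
      simp only [h1, Finset.sum_sub_distrib, Finset.sum_add_distrib, ← Finset.mul_sum]
      rw [s1, s2, s3]; ring
    have h0 := (Finset.sum_eq_zero_iff_of_nonneg hnn).mp hsum j0 (Finset.mem_univ _)
    have h1 := hpair i1 j0 hi1 hj0
    rw [← hβ] at h1
    have h2 : y j0 + s * a j0 * x j0 - β * s * x j0
        = (s * x j0) * ((y j0 / (s * x j0) + a j0) - β) := by
      field_simp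
    rw [h2] at h0
    have h3 : 0 < lam j0 * ((s * x j0) * ((y j0 / (s * x j0) + a j0) - β)) := by
      apply mul_pos (hlam j0)
      apply mul_pos (by positivity) (by linarith)
    linarith
  · rw [not_exists] at hex
    have hx0 : ∀ i, x i = 0 := by
      intro i
      have h1 : ∀ i ∈ Finset.univ, 0 ≤ lam i * (-x i) := fun i _ =>
        mul_nonneg (hlam i).le (by linarith [not_lt.mp (hex i)])
      have h2 : ∑ i, lam i * (-x i) = 0 := by
        simp only [mul_neg, Finset.sum_neg_distrib, s1, neg_zero]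
      have h3 := (Finset.sum_eq_zero_iff_of_nonneg h1).mp h2 i (Finset.mem_univ _)
      rcases mul_eq_zero.mp h3 with h | h
      · exact absurd h (hlam i).ne'
      · linarith
    have hy0 : ∀ i, 0 ≤ y i := by
      intro i
      have h1 := hG i
      rw [hx0] at h1
      have h2 : 0 ≤ (1 - κ ^ 2) * a i ^ 2 := by positivity
      have h3 : 0 ≤ ‖n‖ ^ 2 := by positivity
      linarith
    have hy1 : ∀ i, y i = 0 := by
      intro i
      have h1 : ∀ i ∈ Finset.univ, 0 ≤ lam i * y i := fun i _ =>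
        mul_nonneg (hlam i).le (hy0 i)
      have h3 := (Finset.sum_eq_zero_iff_of_nonneg h1).mp s2 i (Finset.mem_univ _)
      rcases mul_eq_zero.mp h3 with h | h
      · exact absurd h (hlam i).ne'
      · exact h
    have ha0 : ∀ i, a i = 0 := by
      intro i
      have h1 := hG i
      rw [hx0, hy1] at h1
      have h3 : 0 ≤ ‖n‖ ^ 2 := by positivity
      have h4 : (1 - κ ^ 2) * a i ^ 2 ≤ 0 := by linarith
      by_contra h5
      have : 0 < (1 - κ ^ 2) * a i ^ 2 := by positivity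
      linarith
    -- two different points
    have htwo : ∃ i j : ι, i ≠ j := by
      by_contra h
      push Not at h
      obtain ⟨i0⟩ := (inferInstance : Nonempty ι)
      have h1 : ∑ i, lam i • zc (c i) p u = lam i0 • zc (c i0) p u := by
        rw [Finset.sum_eq_single i0]
        · intro b _ hb; exact absurd (h b i0) hb
        · intro hb; exact absurd (Finset.mem_univ _) hb
      rw [h1] at k1
      have h2 : zc (c i0) p u = 0 := by
        rcases smul_eq_zero.mp k1 with h | h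
        · exact absurd h (hlam i0).ne'
        · exact h
      have h3 : ‖zc (c i0) p u‖ ^ 2 = ρ ^ 2 := by rw [norm_zc_sq hu, hact]
      have h4 : 0 < ρ ^ 2 := by positivity
      rw [h2, norm_zero] at h3
      linarith
    obtain ⟨i, j, hij⟩ := htwo
    have h1 := hord i j hij
    have h2 : ⟪c i - c j, u⟫_ℝ = a i - a j := by
      rw [ha, ha, ← inner_sub_left]; congr 1; abel
    rw [h2, ha0, ha0] at h1
    simp at h1

/-- A critical line is the only line of its order class which is as close to the points. -/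
theorem crit_unique {ι : Type*} [Fintype ι] [Nonempty ι] (c : ι → V) (lam : ι → ℝ)
    (hlam : ∀ i, 0 < lam i) {p u q v : V} (hu : ‖u‖ = 1) (hv : ‖v‖ = 1) {ρ : ℝ}
    (hρ : 0 < ρ) (hact : ∀ i, fd (c i) p u = ρ ^ 2)
    (k1 : ∑ i, lam i • zc (c i) p u = 0)
    (k2 : ∑ i, (lam i * ⟪c i - p, u⟫_ℝ) • zc (c i) p u = 0)
    (hq : ∀ i, fd (c i) q v ≤ ρ ^ 2)
    (hsep : ∀ i j, i ≠ j → 2 * ρ < ‖c i - c j‖)
    (hord : ∀ i j, i ≠ j → 0 < ⟪c i - c j, u⟫_ℝ * ⟪c i - c j, v⟫_ℝ) :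
    v = u ∧ ∃ t : ℝ, q = p + t • u := by
  classical
  have habs : |⟪u, v⟫_ℝ| ≤ 1 := by
    have := abs_real_inner_le_norm u v
    rwa [hu, hv, one_mul] at this
  obtain ⟨hle1, hle2⟩ := abs_le.mp habs
  rcases hle2.lt_or_eq with hκ2 | hκ2
  · rcases hle1.lt_or_eq with hκ1 | hκ1
    · -- general position
      exfalso
      obtain ⟨κ, hκ⟩ : ∃ κ : ℝ, κ = ⟪u, v⟫_ℝ := ⟨_, rfl⟩
      obtain ⟨r, hr⟩ : ∃ r : V, r = q - p := ⟨_, rfl⟩
      have hs2 : 1 - κ ^ 2 ≠ 0 := by
        rw [hκ]; nlinarith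
      obtain ⟨t1, ht1⟩ : ∃ t1 : ℝ, t1 = (κ * ⟪u, r⟫_ℝ - ⟪v, r⟫_ℝ) / (1 - κ ^ 2) := ⟨_, rfl⟩
      obtain ⟨t0, ht0⟩ : ∃ t0 : ℝ, t0 = ⟪u, r⟫_ℝ + t1 * κ := ⟨_, rfl⟩
      have e1 : (q + t1 • v) - (p + t0 • u) = r + t1 • v - t0 • u := by rw [hr]; abel
      have e2 : ∀ i, ⟪c i - (p + t0 • u), u⟫_ℝ = ⟪c i - p, u⟫_ℝ - t0 := by
        intro i
        have : c i - (p + t0 • u) = (c i - p) - t0 • u := by abel
        rw [this, inner_sub_left, inner_smul_left, real_inner_self_eq_norm_sq, hu]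
        simp
      refine crit_core c lam hlam (p := p + t0 • u) (q := q + t1 • v) hu hv hρ ?_ ?_ ?_ ?_ hsep
        hord hκ1 hκ2 ?_ ?_
      · intro i; rw [fd_shift hu, hact]
      · simp only [zc_shift hu, k1]
      · simp only [zc_shift hu, e2]
        have : ∀ i, (lam i * (⟪c i - p, u⟫_ℝ - t0)) • zc (c i) p u
            = (lam i * ⟪c i - p, u⟫_ℝ) • zc (c i) p u - t0 • (lam i • zc (c i) p u) := by
          intro i
          rw [smul_smul, ← sub_smul]; congr 1; ring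
        simp only [this, Finset.sum_sub_distrib, ← Finset.smul_sum, k1, k2, smul_zero, sub_zero]
      · intro i; rw [fd_shift hv]; exact hq i
      · rw [e1, inner_sub_right, inner_add_right, inner_smul_right, inner_smul_right, ← hκ,
          real_inner_self_eq_norm_sq, hu, ht0]
        ring
      · rw [e1, inner_sub_right, inner_add_right, inner_smul_right, inner_smul_right,
          real_inner_comm u v, ← hκ, real_inner_self_eq_norm_sq, hv, ht0, ht1]
        field_simp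
        ring
    · -- opposite directions
      exfalso
      have hvu : v = -u := by
        have h1 : ⟪u, -v⟫_ℝ = 1 := by rw [inner_neg_right, ← hκ1]; norm_num
        have h2 := (inner_eq_one_iff_of_norm_eq_one hu (by rw [norm_neg, hv])).mp h1
        rw [h2, neg_neg]
      have htwo : ∃ i j : ι, i ≠ j := by
        by_contra h
        push Not at h
        obtain ⟨i0⟩ := (inferInstance : Nonempty ι)
        have h1 : ∑ i, lam i • zc (c i) p u = lam i0 • zc (c i0) p u := by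
          rw [Finset.sum_eq_single i0]
          · intro b _ hb; exact absurd (h b i0) hb
          · intro hb; exact absurd (Finset.mem_univ _) hb
        rw [h1] at k1
        have h2 : zc (c i0) p u = 0 := by
          rcases smul_eq_zero.mp k1 with h | h
          · exact absurd h (hlam i0).ne'
          · exact h
        have h3 : ‖zc (c i0) p u‖ ^ 2 = ρ ^ 2 := by rw [norm_zc_sq hu, hact]
        have h4 : 0 < ρ ^ 2 := by positivity
        rw [h2, norm_zero] at h3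
        linarith
      obtain ⟨i, j, hij⟩ := htwo
      have h1 := hord i j hij
      rw [hvu, inner_neg_right] at h1
      nlinarith [sq_nonneg ⟪c i - c j, u⟫_ℝ]
  · -- the same direction
    have hvu : v = u := ((inner_eq_one_iff_of_norm_eq_one hu hv).mp hκ2).symm
    refine ⟨hvu, ⟪q - p, u⟫_ℝ, ?_⟩
    obtain ⟨n, hn⟩ : ∃ n : V, n = zc q p u := ⟨_, rfl⟩
    have hnu : ⟪u, n⟫_ℝ = 0 := by rw [hn, real_inner_comm, inner_zc_self hu]
    have hqp : q = (p + n) + ⟪q - p, u⟫_ℝ • u := by rw [hn]; unfold zc; abel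
    have h1 : ∀ i, ‖n‖ ^ 2 ≤ 2 * ⟪zc (c i) p u, n⟫_ℝ := by
      intro i
      have h2 := hq i
      rw [hvu, hqp, fd_shift hu, ← norm_zc_sq hu] at h2
      have h3 : zc (c i) (p + n) u = zc (c i) p u - n := by
        unfold zc
        have : c i - (p + n) = (c i - p) - n := by abel
        rw [this, inner_sub_left, real_inner_comm u n, hnu, sub_zero]
        abel
      rw [h3, @norm_sub_sq_real, norm_zc_sq hu, hact] at h2
      linarith
    have h2 : ∑ i, lam i * ‖n‖ ^ 2 ≤ 0 := by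
      have h3 := congrArg (fun w => ⟪w, n⟫_ℝ) k1
      simp only [sum_inner, inner_smul_left, conj_trivial, inner_zero_left] at h3
      calc ∑ i, lam i * ‖n‖ ^ 2 ≤ ∑ i, lam i * (2 * ⟪zc (c i) p u, n⟫_ℝ) :=
            Finset.sum_le_sum fun i _ => mul_le_mul_of_nonneg_left (h1 i) (hlam i).le
        _ = 2 * ∑ i, lam i * ⟪zc (c i) p u, n⟫_ℝ := by
            rw [Finset.mul_sum]; exact Finset.sum_congr rfl fun i _ => by ring
        _ = 0 := by rw [h3, mul_zero]
    have h4 : n = 0 := by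
      by_contra h
      have h5 : 0 < ‖n‖ := norm_pos_iff.mpr h
      have h6 : 0 < ∑ i, lam i * ‖n‖ ^ 2 :=
        Finset.sum_pos (fun i _ => mul_pos (hlam i) (by positivity)) Finset.univ_nonempty
      linarith
    rw [h4, add_zero] at hqp
    exact hqp

end Pool.Agent.H44.Danzer
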