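import Mathlib
import Pool.Agent.H44.Danzer.Crit

set_option autoImplicit false

open scoped InnerProductSpace Topology
open Filter

namespace Pool.Agent.H44.Danzer

variable {V : Type*} [NormedAddCommGroup V] [InnerProductSpace ℝ V]

/-- The line through `p` with unit direction `w` is within distance `√μ` of every point of `H`,
and its direction is compatible with the relation `Rel`. -/
def Hit (H : Finset V) (μ : ℝ) (Rel : V → V → Prop) (p w : V) : Prop :=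
  ‖w‖ = 1 ∧ (∀ c ∈ H, fd c p w ≤ μ) ∧ ∀ x ∈ H, ∀ y ∈ H, Rel x y → 0 ≤ ⟪y - x, w⟫_ℝ

theorem Hit.mono {H H' : Finset V} {μ μ' : ℝ} {Rel : V → V → Prop} {p w : V}
    (h : Hit H μ Rel p w) (hH : H' ⊆ H) (hμ : μ ≤ μ') : Hit H' μ' Rel p w :=
  ⟨h.1, fun c hc => (h.2.1 c (hH hc)).trans hμ, fun x hx y hy => h.2.2 x (hH hx) y (hH hy)⟩

theorem inner_sub_base (x y p w : V) :
    ⟪y - x, w⟫_ℝ = ⟪y - p, w⟫_ℝ - ⟪x - p, w⟫_ℝ := by
  rw [← inner_sub_left]; congr 1; abel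

theorem gap_sq {p w x y : V} (hw : ‖w‖ = 1) (hx : fd x p w ≤ 1) (hy : fd y p w ≤ 1) :
    ‖x - y‖ ^ 2 - 4 ≤ ⟪y - x, w⟫_ℝ ^ 2 := by
  have h1 := norm_sub_sq_decomp hw x y p
  rw [← norm_zc_sq hw] at hx hy
  have h2 : ‖zc x p w - zc y p w‖ ^ 2 + ‖zc x p w + zc y p w‖ ^ 2
      = 2 * ‖zc x p w‖ ^ 2 + 2 * ‖zc y p w‖ ^ 2 := by
    rw [@norm_sub_sq_real, @norm_add_sq_real]; ring
  have h3 : 0 ≤ ‖zc x p w + zc y p w‖ ^ 2 := by positivity
  rw [inner_sub_base x y p w]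
  have h4 : (⟪y - p, w⟫_ℝ - ⟪x - p, w⟫_ℝ) ^ 2 = (⟪x - p, w⟫_ℝ - ⟪y - p, w⟫_ℝ) ^ 2 := by ring
  rw [h4]
  linarith

theorem inner_ne_zero {p w x y : V} (hw : ‖w‖ = 1) (hx : fd x p w ≤ 1) (hy : fd y p w ≤ 1)
    (hxy : 2 < ‖x - y‖) : ⟪y - x, w⟫_ℝ ≠ 0 := by
  intro h
  have h1 := gap_sq hw hx hy
  rw [h] at h1
  have h2 : (2 : ℝ) ^ 2 < ‖x - y‖ ^ 2 := pow_lt_pow_left₀ hxy (by norm_num) (by norm_num)
  norm_num at h1 h2
  linarith

theorem continuous_fd (c : V) : Continuous fun z : V × V => fd c z.1 z.2 := by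
  unfold fd; fun_prop

variable [FiniteDimensional ℝ V]

/-- Existence of a line of minimal distance compatible with the relation. -/
theorem exists_min {H : Finset V} (hH : H.Nonempty) {μ0 : ℝ} {Rel : V → V → Prop}
    (hex : ∃ p w, Hit H μ0 Rel p w) :
    ∃ μ p w, 0 ≤ μ ∧ μ ≤ μ0 ∧ Hit H μ Rel p w ∧
      ∀ μ' q v, Hit H μ' Rel q v → μ ≤ μ' := by
  classical
  obtain ⟨c0, hc0⟩ := hH
  have hH : H.Nonempty := ⟨c0, hc0⟩
  have hnorm : ∀ {μ' : ℝ} {q v : V}, Hit H μ' Rel q v →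
      ∃ q', Hit H μ' Rel q' v ∧ ‖c0 - q'‖ ^ 2 ≤ μ' := by
    intro μ' q v h
    refine ⟨q + ⟪c0 - q, v⟫_ℝ • v, ⟨h.1, fun c hc => ?_, h.2.2⟩, ?_⟩
    · rw [fd_shift h.1]; exact h.2.1 c hc
    · have h1 : c0 - (q + ⟪c0 - q, v⟫_ℝ • v) = zc c0 q v := by unfold zc; abel
      rw [h1, norm_zc_sq h.1]
      exact h.2.1 c0 hc0
  obtain ⟨p0, w0, h0⟩ := hex
  obtain ⟨p1, h1, h1'⟩ := hnorm h0
  have hμ0 : 0 ≤ μ0 := (fd_nonneg h1.1 c0 p1).trans (h1.2.1 c0 hc0)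
  obtain ⟨K, hK⟩ : ∃ K : Set (V × V), K = ((Metric.closedBall c0 (Real.sqrt μ0)) ×ˢ
      (Metric.sphere (0 : V) 1)) ∩ {z | (∀ c ∈ H, fd c z.1 z.2 ≤ μ0) ∧
        ∀ x ∈ H, ∀ y ∈ H, Rel x y → 0 ≤ ⟪y - x, z.2⟫_ℝ} := ⟨_, rfl⟩
  have hKc : IsCompact K := by
    rw [hK]
    apply IsCompact.inter_right
    · exact (isCompact_closedBall _ _).prod (isCompact_sphere _ _)
    · have e1 : {z : V × V | (∀ c ∈ H, fd c z.1 z.2 ≤ μ0) ∧
          ∀ x ∈ H, ∀ y ∈ H, Rel x y → 0 ≤ ⟪y - x, z.2⟫_ℝ}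
          = (⋂ c ∈ H, {z : V × V | fd c z.1 z.2 ≤ μ0}) ∩
            (⋂ x ∈ H, ⋂ y ∈ H, ⋂ _ : Rel x y, {z : V × V | 0 ≤ ⟪y - x, z.2⟫_ℝ}) := by
        ext z; simp
      rw [e1]
      apply IsClosed.inter
      · exact isClosed_biInter fun c _ => isClosed_le (continuous_fd c) continuous_const
      · exact isClosed_biInter fun x _ => isClosed_biInter fun y _ => isClosed_iInter fun _ =>
          isClosed_le continuous_const (by fun_prop)
  have hmem : ∀ {q v : V}, Hit H μ0 Rel q v → ‖c0 - q‖ ^ 2 ≤ μ0 → (q, v) ∈ K := by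
    intro q v h h'
    rw [hK]
    refine ⟨⟨?_, ?_⟩, h.2.1, h.2.2⟩
    · rw [Metric.mem_closedBall, dist_comm, dist_eq_norm]
      exact Real.le_sqrt_of_sq_le h'
    · simp [h.1]
  have hKn : K.Nonempty := ⟨_, hmem h1 h1'⟩
  have hcont : Continuous fun z : V × V => H.sup' hH fun c => fd c z.1 z.2 :=
    Continuous.finset_sup'_apply hH fun c _ => continuous_fd c
  obtain ⟨z, hzK, hzmin⟩ := hKc.exists_isMinOn hKn hcont.continuousOn
  have hz : ‖z.2‖ = 1 ∧ (∀ c ∈ H, fd c z.1 z.2 ≤ μ0) ∧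
      ∀ x ∈ H, ∀ y ∈ H, Rel x y → 0 ≤ ⟪y - x, z.2⟫_ℝ := by
    rw [hK] at hzK
    obtain ⟨⟨_, h3⟩, h4, h5⟩ := hzK
    refine ⟨by simpa using h3, h4, h5⟩
  refine ⟨H.sup' hH fun c => fd c z.1 z.2, z.1, z.2, ?_, ?_, ?_, ?_⟩
  · exact (fd_nonneg hz.1 c0 z.1).trans (Finset.le_sup' (fun c => fd c z.1 z.2) hc0)
  · exact Finset.sup'_le _ _ hz.2.1
  · exact ⟨hz.1, fun c hc => Finset.le_sup' (fun c => fd c z.1 z.2) hc, hz.2.2⟩
  · intro μ' q v h
    obtain ⟨q', h2, h2'⟩ := hnorm h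
    rcases le_or_gt μ' μ0 with hle | hlt
    · have h3 : (q', v) ∈ K := hmem (h2.mono subset_rfl hle) (h2'.trans hle)
      have h4 := hzmin h3
      simp only [Set.mem_ofPred_eq] at h4
      exact h4.trans (Finset.sup'_le _ _ h2.2.1)
    · exact (Finset.sup'_le _ _ hz.2.1).trans hlt.le

omit [FiniteDimensional ℝ V] in
/-- First order descent. -/
theorem perturb {c p u ξ η : V} {μ : ℝ} (hu : ‖u‖ = 1) (hξ : ⟪u, ξ⟫_ℝ = 0)
    (hη : ⟪u, η⟫_ℝ = 0) (h : fd c p u < μ ∨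
      (fd c p u = μ ∧ 0 < ⟪zc c p u, ξ⟫_ℝ + ⟪c - p, u⟫_ℝ * ⟪zc c p u, η⟫_ℝ)) :
    ∀ᶠ t in 𝓝[>] (0 : ℝ), fd c (p + t • ξ) ((‖u + t • η‖)⁻¹ • (u + t • η)) < μ := by
  rw [inner_zc_of_orth hξ, inner_zc_of_orth hη] at h
  obtain ⟨x, hx⟩ : ∃ x, x = c - p := ⟨_, rfl⟩
  obtain ⟨a, ha⟩ : ∃ a, a = ⟪c - p, u⟫_ℝ := ⟨_, rfl⟩
  obtain ⟨k1, hk1⟩ : ∃ a, a = ⟪c - p, ξ⟫_ℝ := ⟨_, rfl⟩
  obtain ⟨k2, hk2⟩ : ∃ a, a = ⟪c - p, η⟫_ℝ := ⟨_, rfl⟩
  obtain ⟨F, hF⟩ : ∃ F, F = fd c p u := ⟨_, rfl⟩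
  rw [← ha, ← hk1, ← hk2, ← hF] at h
  have hFa : ‖x‖ ^ 2 = F + a ^ 2 := by rw [hF, ha, hx]; unfold fd; ring
  have hN : ∀ t : ℝ, ‖u + t • η‖ ^ 2 = 1 + t ^ 2 * ‖η‖ ^ 2 := by
    intro t
    rw [@norm_add_sq_real, inner_smul_right, hη, norm_smul, hu, mul_pow, Real.norm_eq_abs, sq_abs]
    ring
  have hNpos : ∀ t : ℝ, 0 < 1 + t ^ 2 * ‖η‖ ^ 2 := fun t => by positivity
  have hpoly : ∀ t : ℝ, (1 + t ^ 2 * ‖η‖ ^ 2) * (F + a ^ 2 - 2 * t * k1 + t ^ 2 * ‖ξ‖ ^ 2)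
      - (a + t * k2 - t ^ 2 * ⟪ξ, η⟫_ℝ) ^ 2 - μ * (1 + t ^ 2 * ‖η‖ ^ 2) < 0 →
      fd c (p + t • ξ) ((‖u + t • η‖)⁻¹ • (u + t • η)) < μ := by
    intro t ht
    unfold fd
    have e1 : c - (p + t • ξ) = x - t • ξ := by rw [hx]; abel
    rw [e1, inner_smul_right, mul_pow, inv_pow, hN, @norm_sub_sq_real, inner_smul_right, norm_smul,
      inner_sub_left, inner_smul_left, inner_add_right, inner_add_right, inner_smul_right,
      inner_smul_right, hFa, real_inner_comm u ξ, hξ, hx, ← ha, ← hk1, ← hk2, mul_pow,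
      Real.norm_eq_abs, sq_abs]
    simp only [conj_trivial, zero_add]
    have h1 : F + a ^ 2 - 2 * (t * k1) + t ^ 2 * ‖ξ‖ ^ 2
        - (1 + t ^ 2 * ‖η‖ ^ 2)⁻¹ * (a + t * k2 - t * (t * ⟪ξ, η⟫_ℝ)) ^ 2 - μ
        = (1 + t ^ 2 * ‖η‖ ^ 2)⁻¹ * ((1 + t ^ 2 * ‖η‖ ^ 2)
          * (F + a ^ 2 - 2 * t * k1 + t ^ 2 * ‖ξ‖ ^ 2)
          - (a + t * k2 - t ^ 2 * ⟪ξ, η⟫_ℝ) ^ 2 - μ * (1 + t ^ 2 * ‖η‖ ^ 2)) := by
      have := (hNpos t).ne'
      field_simp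
    have h2 : (1 + t ^ 2 * ‖η‖ ^ 2)⁻¹ * ((1 + t ^ 2 * ‖η‖ ^ 2)
          * (F + a ^ 2 - 2 * t * k1 + t ^ 2 * ‖ξ‖ ^ 2)
          - (a + t * k2 - t ^ 2 * ⟪ξ, η⟫_ℝ) ^ 2 - μ * (1 + t ^ 2 * ‖η‖ ^ 2)) < 0 :=
      mul_neg_of_pos_of_neg (inv_pos.mpr (hNpos t)) ht
    linarith
  rcases h with h | ⟨h, h'⟩
  · have hcont : Continuous fun t : ℝ =>
        (1 + t ^ 2 * ‖η‖ ^ 2) * (F + a ^ 2 - 2 * t * k1 + t ^ 2 * ‖ξ‖ ^ 2)
        - (a + t * k2 - t ^ 2 * ⟪ξ, η⟫_ℝ) ^ 2 - μ * (1 + t ^ 2 * ‖η‖ ^ 2) := by fun_prop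
    have h2 : ∀ᶠ t in 𝓝 (0 : ℝ),
        (1 + t ^ 2 * ‖η‖ ^ 2) * (F + a ^ 2 - 2 * t * k1 + t ^ 2 * ‖ξ‖ ^ 2)
        - (a + t * k2 - t ^ 2 * ⟪ξ, η⟫_ℝ) ^ 2 - μ * (1 + t ^ 2 * ‖η‖ ^ 2) < 0 := by
      apply hcont.continuousAt.eventually_lt continuousAt_const
      norm_num
      linarith
    filter_upwards [h2.filter_mono nhdsWithin_le_nhds] with t ht
    exact hpoly t ht
  · have hcont : Continuous fun t : ℝ =>
        -2 * (k1 + a * k2) + t * (‖ξ‖ ^ 2 + ‖η‖ ^ 2 * (a ^ 2 - 2 * t * k1 + t ^ 2 * ‖ξ‖ ^ 2)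
          + 2 * a * ⟪ξ, η⟫_ℝ - (k2 - t * ⟪ξ, η⟫_ℝ) ^ 2) := by fun_prop
    have h2 : ∀ᶠ t in 𝓝 (0 : ℝ),
        -2 * (k1 + a * k2) + t * (‖ξ‖ ^ 2 + ‖η‖ ^ 2 * (a ^ 2 - 2 * t * k1 + t ^ 2 * ‖ξ‖ ^ 2)
          + 2 * a * ⟪ξ, η⟫_ℝ - (k2 - t * ⟪ξ, η⟫_ℝ) ^ 2) < 0 := by
      apply hcont.continuousAt.eventually_lt continuousAt_const
      norm_num
      linarith
    filter_upwards [h2.filter_mono nhdsWithin_le_nhds, self_mem_nhdsWithin] with t ht ht0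
    apply hpoly t
    have h3 : (1 + t ^ 2 * ‖η‖ ^ 2) * (F + a ^ 2 - 2 * t * k1 + t ^ 2 * ‖ξ‖ ^ 2)
        - (a + t * k2 - t ^ 2 * ⟪ξ, η⟫_ℝ) ^ 2 - μ * (1 + t ^ 2 * ‖η‖ ^ 2)
        = t * (-2 * (k1 + a * k2) + t * (‖ξ‖ ^ 2
          + ‖η‖ ^ 2 * (a ^ 2 - 2 * t * k1 + t ^ 2 * ‖ξ‖ ^ 2)
          + 2 * a * ⟪ξ, η⟫_ℝ - (k2 - t * ⟪ξ, η⟫_ℝ) ^ 2)) := by
      rw [h]; ring
    rw [h3]
    exact mul_neg_of_pos_of_neg ht0 ht

/-- `A` pins the line `(p, u)` at level `μ`: any line which is as close to the points of `A`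
and meets them in the same order is the same line. -/
def Pins (A : Finset V) (μ : ℝ) (p u : V) : Prop :=
  ∀ q v : V, ‖v‖ = 1 → (∀ c ∈ A, fd c q v ≤ μ) →
    (∀ x ∈ A, ∀ y ∈ A, x ≠ y → 0 < ⟪x - y, u⟫_ℝ * ⟪x - y, v⟫_ℝ) →
    v = u ∧ ∃ t : ℝ, q = p + t • u

omit [FiniteDimensional ℝ V] in
theorem pins_zero {x y p u : V} (hxy : x ≠ y) (hu : ‖u‖ = 1) (hx : fd x p u = 0)
    (hy : fd y p u = 0) {A : Finset V} (hxA : x ∈ A) (hyA : y ∈ A) : Pins A 0 p u := by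
  intro q v hv hq hord
  have hz : ∀ {z r w : V}, ‖w‖ = 1 → fd z r w ≤ 0 → z - r = ⟪z - r, w⟫_ℝ • w := by
    intro z r w hw h
    rw [← norm_zc_sq hw] at h
    have h1 : ‖zc z r w‖ = 0 := by
      have := norm_nonneg (zc z r w)
      nlinarith
    have h2 : zc z r w = 0 := norm_eq_zero.mp h1
    unfold zc at h2
    exact sub_eq_zero.mp h2
  have e1 := hz hu hx.le
  have e2 := hz hu hy.le
  have e3 := hz hv (hq x hxA)
  have e4 := hz hv (hq y hyA)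
  have h1 : x - y = (⟪x - p, u⟫_ℝ - ⟪y - p, u⟫_ℝ) • u := by
    rw [sub_smul, ← e1, ← e2]; abel
  have h2 : x - y = (⟪x - q, v⟫_ℝ - ⟪y - q, v⟫_ℝ) • v := by
    rw [sub_smul, ← e3, ← e4]; abel
  obtain ⟨α, hα⟩ : ∃ α : ℝ, α = ⟪x - p, u⟫_ℝ - ⟪y - p, u⟫_ℝ := ⟨_, rfl⟩
  obtain ⟨β, hβ⟩ : ∃ β : ℝ, β = ⟪x - q, v⟫_ℝ - ⟪y - q, v⟫_ℝ := ⟨_, rfl⟩
  rw [← hα] at h1
  rw [← hβ] at h2
  have h3 := hord x hxA y hyA hxy
  have h4 : ⟪x - y, u⟫_ℝ = α := by
    rw [h1, inner_smul_left, real_inner_self_eq_norm_sq, hu]; simp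
  have h5 : ⟪x - y, v⟫_ℝ = β := by
    rw [h2, inner_smul_left, real_inner_self_eq_norm_sq, hv]; simp
  rw [h4, h5] at h3
  have h6 : |α| = |β| := by
    have h7 : ‖x - y‖ = |α| := by rw [h1, norm_smul, hu, mul_one, Real.norm_eq_abs]
    have h8 : ‖x - y‖ = |β| := by rw [h2, norm_smul, hv, mul_one, Real.norm_eq_abs]
    rw [← h7, ← h8]
  have h7 : α = β := by
    rcases abs_eq_abs.mp h6 with h | h
    · exact h
    · rw [h] at h3; nlinarith [sq_nonneg β]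
  have hα0 : α ≠ 0 := by
    rintro h; rw [h] at h3; simp at h3
  have hvu : v = u := by
    have h8 : α • v = α • u := by
      rw [← h1, h2, h7]
    exact (smul_right_injective V hα0) h8
  refine ⟨hvu, ⟪x - p, u⟫_ℝ - ⟪x - q, v⟫_ℝ, ?_⟩
  have e5 : ⟪x - q, v⟫_ℝ • u = x - q := by
    conv_lhs => rw [← hvu]
    exact e3.symm
  rw [sub_smul, ← e1, e5]; abel

/-- Every line of minimal distance is pinned by few points. -/
theorem exists_pins {H : Finset V} {μ : ℝ} {Rel : V → V → Prop} {p u : V}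
    (hd : 2 ≤ Module.finrank ℝ V)
    (hit : Hit H μ Rel p u) (hmin : ∀ μ' q v, Hit H μ' Rel q v → μ ≤ μ') (hcard : 2 ≤ H.card)
    (hμ0 : 0 ≤ μ) (hμ1 : μ ≤ 1) (hsep : ∀ x ∈ H, ∀ y ∈ H, x ≠ y → 2 < ‖x - y‖) :
    ∃ A ⊆ H, A.card ≤ 2 * Module.finrank ℝ V - 1 ∧ Pins A μ p u := by
  classical
  have hHn : H.Nonempty := Finset.card_pos.mp (by omega)
  have hu : ‖u‖ = 1 := hit.1
  rcases hμ0.lt_or_eq with hμ | hμ
  swap
  · -- all points on a line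
    rw [← hμ] at hit ⊢
    obtain ⟨x, hx, y, hy, hxy⟩ := Finset.one_lt_card.mp (by omega : 1 < H.card)
    refine ⟨{x, y}, ?_, ?_, ?_⟩
    · intro z hz
      rcases Finset.mem_insert.mp hz with h | h
      · rw [h]; exact hx
      · rw [Finset.mem_singleton.mp h]; exact hy
    · exact (Finset.card_le_two).trans (by omega)
    · exact pins_zero hxy hu (le_antisymm (hit.2.1 x hx) (fd_nonneg hu x p))
        (le_antisymm (hit.2.1 y hy) (fd_nonneg hu y p)) (by simp) (by simp)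
  · obtain ⟨W, hW⟩ : ∃ W : Submodule ℝ V, W = (Submodule.span ℝ {u})ᗮ := ⟨_, rfl⟩
    have hu0 : u ≠ 0 := by
      intro h; rw [h, norm_zero] at hu; norm_num at hu
    have hWfin : Module.finrank ℝ W + 1 = Module.finrank ℝ V := by
      have h1 := Submodule.finrank_add_finrank_orthogonal (Submodule.span ℝ {u})
      rw [finrank_span_singleton hu0, ← hW] at h1
      omega
    have hmemW : ∀ c, zc c p u ∈ W := by
      intro c
      rw [hW, Submodule.mem_orthogonal_singleton_iff_inner_right, real_inner_comm]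
      exact inner_zc_self hu c p
    obtain ⟨g, hg⟩ : ∃ g : V → W × W, ∀ c, g c = ((⟨zc c p u, hmemW c⟩ : W),
      ⟪c - p, u⟫_ℝ • (⟨zc c p u, hmemW c⟩ : W)) := ⟨_, fun _ => rfl⟩
    obtain ⟨s, hs⟩ : ∃ s : Set (W × W), s = g '' {c | c ∈ H ∧ fd c p u = μ} := ⟨_, rfl⟩
    have hsfin : s.Finite := by
      rw [hs]
      apply Set.Finite.image
      exact (H.finite_toSet).subset fun c hc => hc.1
    have hmem : (0 : W × W) ∈ convexHull ℝ s := by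
      by_contra hnot
      obtain ⟨f, α, hf0, hf⟩ := geometric_hahn_banach_point_closed (convex_convexHull ℝ s)
        (hsfin.isCompact_convexHull ℝ).isClosed hnot
      rw [map_zero] at hf0
      obtain ⟨ξ, hξ⟩ : ∃ ξ : W, ∀ z : W, ⟪ξ, z⟫_ℝ = f (z, 0) := by
        refine ⟨(InnerProductSpace.toDual ℝ W).symm (f.comp (ContinuousLinearMap.inl ℝ W W)), ?_⟩
        intro z
        rw [InnerProductSpace.toDual_symm_apply]
        rfl
      obtain ⟨η, hη⟩ : ∃ η : W, ∀ z : W, ⟪η, z⟫_ℝ = f (0, z) := by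
        refine ⟨(InnerProductSpace.toDual ℝ W).symm (f.comp (ContinuousLinearMap.inr ℝ W W)), ?_⟩
        intro z
        rw [InnerProductSpace.toDual_symm_apply]
        rfl
      have hWo : ∀ z ∈ W, ⟪u, z⟫_ℝ = 0 := by
        intro z hz
        rw [hW, Submodule.mem_orthogonal_singleton_iff_inner_right] at hz
        exact hz
      have hξu : ⟪u, (ξ : V)⟫_ℝ = 0 := hWo _ ξ.2
      have hηu : ⟪u, (η : V)⟫_ℝ = 0 := hWo _ η.2
      have hpos : ∀ c ∈ H, fd c p u = μ →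
          0 < ⟪zc c p u, (ξ : V)⟫_ℝ + ⟪c - p, u⟫_ℝ * ⟪zc c p u, (η : V)⟫_ℝ := by
        intro c hc hcμ
        have h1 : g c ∈ convexHull ℝ s :=
          subset_convexHull ℝ s (by rw [hs]; exact ⟨c, ⟨hc, hcμ⟩, rfl⟩)
        have h2 := hf _ h1
        have h3 : f (g c) = ⟪zc c p u, (ξ : V)⟫_ℝ + ⟪c - p, u⟫_ℝ * ⟪zc c p u, (η : V)⟫_ℝ := by
          have h4 : g c = ((⟨zc c p u, hmemW c⟩ : W), (0 : W))
              + ((0 : W), ⟪c - p, u⟫_ℝ • (⟨zc c p u, hmemW c⟩ : W)) := by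
            rw [hg]; simp
          rw [h4, map_add, ← hξ, ← hη, inner_smul_right, Submodule.coe_inner,
            Submodule.coe_inner, real_inner_comm, real_inner_comm (zc c p u) (η : V)]
        rw [h3] at h2
        linarith
      -- descent
      have hev1 : ∀ᶠ t in 𝓝[>] (0 : ℝ), ∀ c ∈ H,
          fd c (p + t • (ξ : V)) ((‖u + t • (η : V)‖)⁻¹ • (u + t • (η : V))) < μ := by
        rw [Filter.eventually_all_finset]
        intro c hc
        apply perturb hu hξu hηu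
        rcases (hit.2.1 c hc).lt_or_eq with h | h
        · exact Or.inl h
        · exact Or.inr ⟨h, hpos c hc h⟩
      have hev2 : ∀ᶠ t in 𝓝[>] (0 : ℝ), ∀ x ∈ H, ∀ y ∈ H, Rel x y →
          0 ≤ ⟪y - x, (‖u + t • (η : V)‖)⁻¹ • (u + t • (η : V))⟫_ℝ := by
        rw [Filter.eventually_all_finset]
        intro x hx
        rw [Filter.eventually_all_finset]
        intro y hy
        by_cases hxy : x = y
        · refine Filter.Eventually.of_forall fun t _ => ?_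
          rw [hxy, sub_self, inner_zero_left]
        · by_cases hr : Rel x y
          · have h1 : 0 < ⟪y - x, u⟫_ℝ := by
              rcases (hit.2.2 x hx y hy hr).lt_or_eq with h | h
              · exact h
              · exact absurd h.symm (inner_ne_zero hu ((hit.2.1 x hx).trans hμ1)
                  ((hit.2.1 y hy).trans hμ1) (hsep x hx y hy hxy))
            have hcont : Continuous fun t : ℝ => ⟪y - x, u⟫_ℝ + t * ⟪y - x, (η : V)⟫_ℝ := by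
              fun_prop
            have h2 : ∀ᶠ t in 𝓝 (0 : ℝ), 0 < ⟪y - x, u⟫_ℝ + t * ⟪y - x, (η : V)⟫_ℝ := by
              apply continuousAt_const.eventually_lt hcont.continuousAt
              simpa using h1
            filter_upwards [h2.filter_mono nhdsWithin_le_nhds] with t ht _
            rw [inner_smul_right, inner_add_right, inner_smul_right]
            exact mul_nonneg (inv_nonneg.mpr (norm_nonneg _)) ht.le
          · exact Filter.Eventually.of_forall fun t h => absurd h hr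
      obtain ⟨t, ht1, ht2⟩ := (hev1.and hev2).exists
      have hw1 : ‖(‖u + t • (η : V)‖)⁻¹ • (u + t • (η : V))‖ = 1 := by
        rw [norm_smul, norm_inv, norm_norm]
        apply inv_mul_cancel₀
        intro h
        have h1 : ‖u + t • (η : V)‖ ^ 2 = 1 + t ^ 2 * ‖(η : V)‖ ^ 2 := by
          rw [@norm_add_sq_real, inner_smul_right, hηu, norm_smul, hu, mul_pow,
            Real.norm_eq_abs, sq_abs]
          ring
        rw [h] at h1
        have : 0 ≤ t ^ 2 * ‖(η : V)‖ ^ 2 := by positivity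
        linarith
      have hit2 : Hit H (H.sup' hHn fun c => fd c (p + t • (ξ : V))
          ((‖u + t • (η : V)‖)⁻¹ • (u + t • (η : V)))) Rel (p + t • (ξ : V))
          ((‖u + t • (η : V)‖)⁻¹ • (u + t • (η : V))) :=
        ⟨hw1, fun c hc => Finset.le_sup' (fun c => fd c (p + t • (ξ : V))
          ((‖u + t • (η : V)‖)⁻¹ • (u + t • (η : V)))) hc, ht2⟩
      have h5 := hmin _ _ _ hit2
      have h6 : H.sup' hHn (fun c => fd c (p + t • (ξ : V))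
          ((‖u + t • (η : V)‖)⁻¹ • (u + t • (η : V)))) < μ :=
        (Finset.sup'_lt_iff hHn).mpr ht1
      linarith
    obtain ⟨ι, _, z, w, hzs, hAI, hw, hwsum, hwz⟩ := eq_pos_convex_span_of_mem_convexHull hmem
    have hzc : ∀ i, ∃ c, c ∈ H ∧ fd c p u = μ ∧ g c = z i := by
      intro i
      have h1 : z i ∈ s := hzs ⟨i, rfl⟩
      rw [hs] at h1
      obtain ⟨c, ⟨hc1, hc2⟩, hc3⟩ := h1
      exact ⟨c, hc1, hc2, hc3⟩
    choose c hcH hcμ hcz using hzc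
    have hinj : Function.Injective c := by
      intro i j hij
      apply hAI.injective
      rw [← hcz, ← hcz, hij]
    have hne : Nonempty ι := by
      by_contra h
      rw [not_nonempty_iff] at h
      rw [Finset.univ_eq_empty, Finset.sum_empty] at hwsum
      norm_num at hwsum
    refine ⟨Finset.univ.image c, ?_, ?_, ?_⟩
    · intro x hx
      obtain ⟨i, _, rfl⟩ := Finset.mem_image.mp hx
      exact hcH i
    · refine (Finset.card_image_le).trans ?_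
      rw [Finset.card_univ]
      refine (hAI.card_le_finrank_succ).trans ?_
      have h1 := Submodule.finrank_le (vectorSpan ℝ (Set.range z))
      rw [Module.finrank_prod] at h1
      omega
    · intro q v hv hq hord
      have hsq : Real.sqrt μ ^ 2 = μ := Real.sq_sqrt hμ.le
      have hk : ∑ i, w i • ((⟨zc (c i) p u, hmemW (c i)⟩ : W),
          ⟪c i - p, u⟫_ℝ • (⟨zc (c i) p u, hmemW (c i)⟩ : W)) = (0 : W × W) := by
        rw [← hwz]
        refine Finset.sum_congr rfl fun i _ => ?_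
        rw [← hcz, hg]
      refine crit_unique c w hw hu hv (Real.sqrt_pos.mpr hμ) (fun i => by rw [hsq, hcμ]) ?_ ?_
        (fun i => by rw [hsq]; exact hq _ (Finset.mem_image_of_mem c (Finset.mem_univ i)))
        ?_ ?_
      · have h1 := congrArg Prod.fst hk
        rw [Prod.fst_sum] at h1
        have h2 := congrArg (fun z : W => (z : V)) h1
        simp only [Prod.smul_fst, Submodule.coe_sum, Submodule.coe_smul, Prod.fst_zero,
          Submodule.coe_zero] at h2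
        exact h2
      · have h1 := congrArg Prod.snd hk
        rw [Prod.snd_sum] at h1
        have h2 := congrArg (fun z : W => (z : V)) h1
        simp only [Prod.smul_snd, Submodule.coe_sum, Submodule.coe_smul, Prod.snd_zero,
          Submodule.coe_zero, smul_smul] at h2
        exact h2
      · intro i j hij
        have h1 := hsep _ (hcH i) _ (hcH j) (hinj.ne hij)
        have h2 : Real.sqrt μ ≤ 1 := by
          have := Real.sqrt_le_sqrt hμ1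
          rwa [Real.sqrt_one] at this
        linarith
      · intro i j hij
        exact hord _ (Finset.mem_image_of_mem c (Finset.mem_univ i)) _
          (Finset.mem_image_of_mem c (Finset.mem_univ j)) (hinj.ne hij)

end Pool.Agent.H44.Danzer
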