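import Mathlib
import Pool.Agent.H44.Danzer.Min

set_option autoImplicit false

open scoped InnerProductSpace Topology

namespace Pool.Agent.H44.Danzer

variable {V : Type*} [NormedAddCommGroup V] [InnerProductSpace ℝ V]

theorem Hit.rel_pos {H : Finset V} {μ : ℝ} {Rel : V → V → Prop} {p w : V}
    (h : Hit H μ Rel p w) (hμ : μ ≤ 1) {x y : V} (hx : x ∈ H) (hy : y ∈ H)
    (hsep : 2 < ‖x - y‖) (hr : Rel x y) : 0 < ⟪y - x, w⟫_ℝ := by
  rcases (h.2.2 x hx y hy hr).lt_or_eq with h1 | h1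
  · exact h1
  · exact absurd h1.symm (inner_ne_zero h.1 ((h.2.1 x hx).trans hμ) ((h.2.1 y hy).trans hμ) hsep)

theorem Hit.same_order {H H' : Finset V} {μ μ' : ℝ} {Rel : V → V → Prop} {p w p' w' : V}
    (h : Hit H μ Rel p w) (h' : Hit H' μ' Rel p' w') (hμ : μ ≤ 1) (hμ' : μ' ≤ 1) {x y : V}
    (hx : x ∈ H) (hy : y ∈ H) (hx' : x ∈ H') (hy' : y ∈ H')
    (hsep : 2 < ‖x - y‖) (hr : Rel x y ∨ Rel y x) : 0 < ⟪x - y, w⟫_ℝ * ⟪x - y, w'⟫_ℝ := by
  rcases hr with hr | hr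
  · have h1 := h.rel_pos hμ hx hy hsep hr
    have h2 := h'.rel_pos hμ' hx' hy' hsep hr
    have h3 : x - y = -(y - x) := by abel
    rw [h3, inner_neg_left, inner_neg_left]
    nlinarith
  · rw [norm_sub_rev] at hsep
    exact mul_pos (h.rel_pos hμ hy hx hsep hr) (h'.rel_pos hμ' hy' hx' hsep hr)

variable [FiniteDimensional ℝ V]

/-- An ordered Helly theorem for line transversals. -/
theorem ordered_helly {G : Finset V} {μ : ℝ} {Rel : V → V → Prop}
    (hd : 2 ≤ Module.finrank ℝ V) (hμ1 : μ ≤ 1)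
    (hsep : ∀ x ∈ G, ∀ y ∈ G, x ≠ y → 2 < ‖x - y‖)
    (htot : ∀ x ∈ G, ∀ y ∈ G, x ≠ y → Rel x y ∨ Rel y x)
    (hno : ¬ ∃ p w, Hit G μ Rel p w) :
    ∃ H ⊆ G, H.card ≤ 2 * Module.finrank ℝ V + 1 ∧ ¬ ∃ p w, Hit H μ Rel p w := by
  classical
  obtain ⟨H, hH, hHmin⟩ := Finset.exists_min_image
    (G.powerset.filter fun H => ¬ ∃ p w, Hit H μ Rel p w) Finset.card
    ⟨G, by simp only [Finset.mem_filter, Finset.mem_powerset]; exact ⟨subset_rfl, hno⟩⟩
  simp only [Finset.mem_filter, Finset.mem_powerset] at hH hHmin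
  obtain ⟨hHG, hHno⟩ := hH
  refine ⟨H, hHG, ?_, hHno⟩
  by_contra hcard
  rw [not_le] at hcard
  have herase : ∀ h ∈ H, ∃ p w, Hit (H.erase h) μ Rel p w := by
    intro h hh
    by_contra hcon
    have h1 := hHmin (H.erase h) ⟨(Finset.erase_subset _ _).trans hHG, hcon⟩
    have h2 := Finset.card_erase_lt_of_mem hh
    omega
  have hmin : ∀ h ∈ H, ∃ m p w, 0 ≤ m ∧ m ≤ μ ∧ Hit (H.erase h) m Rel p w ∧
      ∀ μ' q v, Hit (H.erase h) μ' Rel q v → m ≤ μ' := by
    intro h hh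
    apply exists_min _ (herase h hh)
    rw [← Finset.card_pos, Finset.card_erase_of_mem hh]
    omega
  choose! m P U h1 h2 h3 h4 using hmin
  obtain ⟨h0, hh0, hmax⟩ := Finset.exists_max_image H m (Finset.card_pos.mp (by omega))
  have hsep' : ∀ x ∈ H, ∀ y ∈ H, x ≠ y → 2 < ‖x - y‖ := fun x hx y hy =>
    hsep x (hHG hx) y (hHG hy)
  obtain ⟨A, hAsub, hAcard, hpin⟩ := exists_pins hd (h3 h0 hh0) (h4 h0 hh0)
    (by rw [Finset.card_erase_of_mem hh0]; omega) (h1 h0 hh0) ((h2 h0 hh0).trans hμ1)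
    (fun x hx y hy => hsep' x (Finset.mem_of_mem_erase hx) y (Finset.mem_of_mem_erase hy))
  have hAH : A ⊆ H := hAsub.trans (Finset.erase_subset _ _)
  have hBcard : 1 < (H \ insert h0 A).card := by
    have e1 := Finset.le_card_sdiff (insert h0 A) H
    have e2 := Finset.card_insert_le h0 A
    omega
  obtain ⟨h', hh', h'', hh'', hne⟩ := Finset.one_lt_card.mp hBcard
  have key : ∀ k ∈ H \ insert h0 A, Hit (H.erase k) μ Rel (P h0) (U h0) := by
    intro k hk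
    rw [Finset.mem_sdiff, Finset.mem_insert, not_or] at hk
    obtain ⟨hkH, hk0, hkA⟩ := hk
    have hAk : A ⊆ H.erase k := fun x hx =>
      Finset.mem_erase.mpr ⟨fun h => hkA (h ▸ hx), hAH hx⟩
    have hp := hpin (P k) (U k) (h3 k hkH).1
      (fun c hc => ((h3 k hkH).2.1 c (hAk hc)).trans (hmax k hkH))
      (fun x hx y hy hxy => (h3 h0 hh0).same_order (h3 k hkH) ((h2 h0 hh0).trans hμ1)
        ((h2 k hkH).trans hμ1) (hAsub hx) (hAsub hy) (hAk hx) (hAk hy)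
        (hsep' x (hAH hx) y (hAH hy) hxy) (htot x (hHG (hAH hx)) y (hHG (hAH hy)) hxy))
    obtain ⟨hU, t, hP⟩ := hp
    have h5 := (h3 k hkH).mono subset_rfl (h2 k hkH)
    refine ⟨(h3 h0 hh0).1, fun c hc => ?_, fun x hx y hy hr => ?_⟩
    · have h6 := h5.2.1 c hc
      rw [hU, hP, fd_shift (h3 h0 hh0).1] at h6
      exact h6
    · have h6 := h5.2.2 x hx y hy hr
      rwa [hU] at h6
  have k0 := (h3 h0 hh0).mono subset_rfl (h2 h0 hh0)
  have k1 := key h' hh'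
  have k2 := key h'' hh''
  rw [Finset.mem_sdiff, Finset.mem_insert, not_or] at hh' hh''
  apply hHno
  refine ⟨P h0, U h0, (h3 h0 hh0).1, fun c hc => ?_, fun x hx y hy hr => ?_⟩
  · by_cases hc0 : c = h0
    · exact k1.2.1 c (Finset.mem_erase.mpr ⟨fun h => hh'.2.1 (h.symm.trans hc0), hc⟩)
    · exact k0.2.1 c (Finset.mem_erase.mpr ⟨hc0, hc⟩)
  · by_cases hxy : x = y
    · rw [hxy, sub_self, inner_zero_left]
    · by_cases e0 : x = h0 ∨ y = h0
      · by_cases e1 : x = h' ∨ y = h'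
        · have e2 : x ≠ h'' ∧ y ≠ h'' := by
            have n1 := hh'.2.1
            have n2 := hh''.2.1
            rcases e0 with e0 | e0 <;> rcases e1 with e1 | e1
            · exact absurd (e1.symm.trans e0) n1
            · exact ⟨fun h => n2 (h.symm.trans e0), fun h => hne (e1.symm.trans h)⟩
            · exact ⟨fun h => hne (e1.symm.trans h), fun h => n2 (h.symm.trans e0)⟩
            · exact absurd (e1.symm.trans e0) n1
          exact k2.2.2 x (Finset.mem_erase.mpr ⟨e2.1, hx⟩) y (Finset.mem_erase.mpr ⟨e2.2, hy⟩) hr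
        · rw [not_or] at e1
          exact k1.2.2 x (Finset.mem_erase.mpr ⟨e1.1, hx⟩) y (Finset.mem_erase.mpr ⟨e1.2, hy⟩) hr
      · rw [not_or] at e0
        exact k0.2.2 x (Finset.mem_erase.mpr ⟨e0.1, hx⟩) y (Finset.mem_erase.mpr ⟨e0.2, hy⟩) hr

end Pool.Agent.H44.Danzer
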