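import Mathlib
import Pool.Agent.H44.Danzer.Helly

set_option autoImplicit false

open scoped InnerProductSpace Topology

namespace Pool.Agent.H44.Danzer

variable {V : Type*} [NormedAddCommGroup V] [InnerProductSpace ℝ V]

/-- The line `(p, w)` meets all closed unit balls centred in `H`. -/
def UT (H : Finset V) (p w : V) : Prop := ‖w‖ = 1 ∧ ∀ c ∈ H, fd c p w ≤ 1

/-- Any three points spread by more than `L` along any unit transversal. -/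
def TripGap (H : Finset V) (L : ℝ) : Prop :=
  ∀ p w : V, UT H p w → ∀ x ∈ H, ∀ y ∈ H, ∀ z ∈ H, x ≠ y → y ≠ z → x ≠ z →
    ⟪x, w⟫_ℝ ≤ ⟪y, w⟫_ℝ → ⟪y, w⟫_ℝ ≤ ⟪z, w⟫_ℝ → L < ⟪z, w⟫_ℝ - ⟪x, w⟫_ℝ

/-- Any two unit transversals are nearly parallel and differ by at most one swap. -/
def Good (H : Finset V) : Prop :=
  ∀ p u q v : V, UT H p u → UT H q v → 1 / 2 < |⟪u, v⟫_ℝ| ∧ (0 < ⟪u, v⟫_ℝ →
    ∀ x ∈ H, ∀ y ∈ H, ∀ x' ∈ H, ∀ y' ∈ H, ⟪x, u⟫_ℝ < ⟪y, u⟫_ℝ → ⟪y, v⟫_ℝ < ⟪x, v⟫_ℝ →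
      ⟪x', u⟫_ℝ < ⟪y', u⟫_ℝ → ⟪y', v⟫_ℝ < ⟪x', v⟫_ℝ → x = x' ∧ y = y')

omit [InnerProductSpace ℝ V] in
theorem four_lt_sq {x y : V} (h : 2 < ‖x - y‖) : 4 < ‖x - y‖ ^ 2 := by
  have : (2 : ℝ) ^ 2 < ‖x - y‖ ^ 2 := pow_lt_pow_left₀ h (by norm_num) (by norm_num)
  linarith

/-- parallelogram law -/
theorem para (a b : V) : ‖a + b‖ ^ 2 = 2 * ‖a‖ ^ 2 + 2 * ‖b‖ ^ 2 - ‖a - b‖ ^ 2 := by
  rw [@norm_sub_sq_real, @norm_add_sq_real]; ring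

theorem gap_E {p w x y z : V} (hw : ‖w‖ = 1) (hx : fd x p w ≤ 1) (hy : fd y p w ≤ 1)
    (hz : fd z p w ≤ 1) (hxy : 2 < ‖x - y‖) (hyz : 2 < ‖y - z‖) (hxz : 2 < ‖x - z‖) :
    4 < ⟪z - x, w⟫_ℝ ^ 2 + ⟪z - y, w⟫_ℝ ^ 2 + 2 * |⟪y - x, w⟫_ℝ| := by
  have d1 := norm_sub_sq_decomp hw x y p
  have d2 := norm_sub_sq_decomp hw y z p
  have d3 := norm_sub_sq_decomp hw x z p
  rw [inner_sub_base x z p w, inner_sub_base y z p w, inner_sub_base x y p w]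
  rw [← norm_zc_sq hw] at hx hy hz
  obtain ⟨a, ha⟩ : ∃ a, a = zc x p w := ⟨_, rfl⟩
  obtain ⟨b, hb⟩ : ∃ a, a = zc y p w := ⟨_, rfl⟩
  obtain ⟨c, hc⟩ : ∃ a, a = zc z p w := ⟨_, rfl⟩
  obtain ⟨s, hs⟩ : ∃ a, a = ⟪x - p, w⟫_ℝ := ⟨_, rfl⟩
  obtain ⟨t, ht⟩ : ∃ a, a = ⟪y - p, w⟫_ℝ := ⟨_, rfl⟩
  obtain ⟨r, hr⟩ : ∃ a, a = ⟪z - p, w⟫_ℝ := ⟨_, rfl⟩
  rw [← ha, ← hb, ← hs, ← ht] at d1
  rw [← hb, ← hc, ← ht, ← hr] at d2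
  rw [← ha, ← hc, ← hs, ← hr] at d3
  rw [← ha] at hx
  rw [← hb] at hy
  rw [← hc] at hz
  rw [← hs, ← ht, ← hr]
  have f1 := four_lt_sq hxy
  have f2 := four_lt_sq hyz
  have f3 := four_lt_sq hxz
  obtain ⟨M, hM⟩ : ∃ M : V, M = (1 / 2 : ℝ) • (a + b) := ⟨_, rfl⟩
  have e1 : ‖a - c‖ ^ 2 + ‖b - c‖ ^ 2 = 1 / 2 * ‖a - b‖ ^ 2 + 2 * ‖c - M‖ ^ 2 := by
    rw [hM, @norm_sub_sq_real, @norm_sub_sq_real, @norm_sub_sq_real, @norm_sub_sq_real,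
      inner_smul_right, inner_add_right, norm_smul, mul_pow, @norm_add_sq_real,
      real_inner_comm c a, real_inner_comm c b]
    norm_num
    ring
  have e2 : ‖M‖ ^ 2 = 1 / 4 * ‖a + b‖ ^ 2 := by
    rw [hM, norm_smul, mul_pow]; norm_num
  have e3 := para a b
  have e4 : ‖c - M‖ ≤ 1 + ‖M‖ := by
    have h1 := norm_sub_le c M
    have h2 : ‖c‖ ≤ 1 := by
      have := norm_nonneg c
      nlinarith
    linarith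
  have e5 : ‖c - M‖ ^ 2 ≤ (1 + ‖M‖) ^ 2 := pow_le_pow_left₀ (norm_nonneg _) e4 2
  have e6 : (2 * ‖M‖) ^ 2 < |t - s| ^ 2 := by
    rw [sq_abs]; nlinarith
  have e7 : 2 * ‖M‖ < |t - s| := lt_of_pow_lt_pow_left₀ 2 (abs_nonneg _) e6
  nlinarith

theorem gap_sqrt_two {p w x y z : V} (hw : ‖w‖ = 1) (hx : fd x p w ≤ 1) (hy : fd y p w ≤ 1)
    (hz : fd z p w ≤ 1) (hxy : 2 < ‖x - y‖) (hyz : 2 < ‖y - z‖) (hxz : 2 < ‖x - z‖)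
    (h1 : 0 ≤ ⟪y - x, w⟫_ℝ) (h2 : 0 ≤ ⟪z - y, w⟫_ℝ) : Real.sqrt 2 < ⟪z - x, w⟫_ℝ := by
  have E1 := gap_E hw hx hy hz hxy hyz hxz
  have E2 := gap_E hw hz hy hx (by rwa [norm_sub_rev]) (by rwa [norm_sub_rev])
    (by rwa [norm_sub_rev])
  have hsum : ⟪z - x, w⟫_ℝ = ⟪y - x, w⟫_ℝ + ⟪z - y, w⟫_ℝ := by
    rw [← inner_add_left]; congr 1; abel
  have hneg1 : ⟪x - z, w⟫_ℝ = -⟪z - x, w⟫_ℝ := by
    rw [← inner_neg_left]; congr 1; abel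
  have hneg2 : ⟪x - y, w⟫_ℝ = -⟪y - x, w⟫_ℝ := by
    rw [← inner_neg_left]; congr 1; abel
  have hneg3 : ⟪y - z, w⟫_ℝ = -⟪z - y, w⟫_ℝ := by
    rw [← inner_neg_left]; congr 1; abel
  rw [hneg1, hneg2, hneg3, abs_neg, abs_of_nonneg h2] at E2
  rw [abs_of_nonneg h1] at E1
  obtain ⟨a, ha⟩ : ∃ a, a = ⟪y - x, w⟫_ℝ := ⟨_, rfl⟩
  obtain ⟨b, hb⟩ : ∃ a, a = ⟪z - y, w⟫_ℝ := ⟨_, rfl⟩
  rw [hsum, ← ha, ← hb] at E1 E2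
  rw [hsum, ← ha, ← hb]
  rw [← ha] at h1
  rw [← hb] at h2
  by_contra hcon
  rw [not_lt] at hcon
  obtain ⟨s, hs⟩ : ∃ s, s = Real.sqrt 2 := ⟨_, rfl⟩
  have hs2 : s ^ 2 = 2 := by rw [hs]; norm_num
  have hs0 : 0 ≤ s := by rw [hs]; positivity
  have hs1 : 1.4 < s := by
    by_contra h
    rw [not_lt] at h
    nlinarith
  have hs3 : s < 1.5 := by
    by_contra h
    rw [not_lt] at h
    nlinarith
  rw [← hs] at hcon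
  have hL2 : (a + b) ^ 2 ≤ 2 := by nlinarith
  have hb1 : b < 2 - s := by
    by_contra h
    rw [not_lt] at h
    have h3 : 0 ≤ (s - b) * (b - (2 - s)) := mul_nonneg (by linarith) (by linarith)
    nlinarith
  have ha1 : a < 2 - s := by
    by_contra h
    rw [not_lt] at h
    have h3 : 0 ≤ (s - a) * (a - (2 - s)) := mul_nonneg (by linarith) (by linarith)
    nlinarith
  have h5 : (a + b) ^ 2 ≤ (4 - 2 * s) ^ 2 := pow_le_pow_left₀ (by linarith) (by linarith) 2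
  nlinarith

end Pool.Agent.H44.Danzer
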