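import Mathlib
import Pool.Agent.H44.Danzer.Swap

set_option autoImplicit false

open scoped InnerProductSpace Topology

namespace Pool.Agent.H44.Danzer

variable {V : Type*} [NormedAddCommGroup V] [InnerProductSpace ℝ V]

/-- Gram inequality for two unit vectors and a third vector. -/
theorem gram {u v c : V} (hu : ‖u‖ = 1) (hv : ‖v‖ = 1) (h : ⟪u, v⟫_ℝ ^ 2 < 1) :
    ⟪c, u⟫_ℝ ^ 2 + ⟪c, v⟫_ℝ ^ 2 - 2 * ⟪u, v⟫_ℝ * ⟪c, u⟫_ℝ * ⟪c, v⟫_ℝ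
      ≤ ‖c‖ ^ 2 * (1 - ⟪u, v⟫_ℝ ^ 2) := by
  obtain ⟨κ, hκ⟩ : ∃ a, a = ⟪u, v⟫_ℝ := ⟨_, rfl⟩
  obtain ⟨a, ha⟩ : ∃ a, a = ⟪c, u⟫_ℝ := ⟨_, rfl⟩
  obtain ⟨b, hb⟩ : ∃ a, a = ⟪c, v⟫_ℝ := ⟨_, rfl⟩
  rw [← hκ] at h
  rw [← hκ, ← ha, ← hb]
  have h0 : 0 < 1 - κ ^ 2 := by linarith
  have h1 : 0 ≤ ‖((1 - κ ^ 2) • c - (a - κ * b) • u) - (b - κ * a) • v‖ ^ 2 := by positivity
  have h2 : ‖((1 - κ ^ 2) • c - (a - κ * b) • u) - (b - κ * a) • v‖ ^ 2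
      = (1 - κ ^ 2) * (‖c‖ ^ 2 * (1 - κ ^ 2) - (a ^ 2 + b ^ 2 - 2 * κ * a * b)) := by
    rw [@norm_sub_sq_real, @norm_sub_sq_real, inner_sub_left, inner_smul_left, inner_smul_left,
      inner_smul_right, inner_smul_right, inner_smul_left, inner_smul_right, norm_smul, norm_smul,
      norm_smul, hu, hv, ← hκ, ← ha, ← hb]
    simp only [Real.norm_eq_abs, mul_one, sq_abs, conj_trivial, mul_pow]
    ring
  rw [h2] at h1
  have h3 := (mul_nonneg_iff_of_pos_left h0).mp h1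
  linarith

theorem UT.gap {H : Finset V} {p w x y : V} (h : UT H p w) (hx : x ∈ H) (hy : y ∈ H) :
    ‖x - y‖ ^ 2 - 4 ≤ ⟪y - x, w⟫_ℝ ^ 2 := gap_sq h.1 (h.2 x hx) (h.2 y hy)

/-- A swapped pair has a small projection. -/
theorem swapped_small {H : Finset V} {p u q v x y : V} (hu : UT H p u) (hv : UT H q v)
    (hx : x ∈ H) (hy : y ∈ H) (hxy : 2 < ‖x - y‖) (hκ : 0 < ⟪u, v⟫_ℝ)
    (h1 : 0 < ⟪y - x, u⟫_ℝ) (h2 : ⟪y - x, v⟫_ℝ < 0) :
    ⟪y - x, u⟫_ℝ ^ 2 < 4 * (1 - ⟪u, v⟫_ℝ ^ 2) ∧ ⟪y - x, v⟫_ℝ ^ 2 < 4 * (1 - ⟪u, v⟫_ℝ ^ 2) := by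
  have hκ1 : ⟪u, v⟫_ℝ < 1 := by
    have h3 : ⟪u, v⟫_ℝ ≤ 1 := by
      have := real_inner_le_norm u v
      rwa [hu.1, hv.1, one_mul] at this
    rcases h3.lt_or_eq with h | h
    · exact h
    · exfalso
      have := (inner_eq_one_iff_of_norm_eq_one hu.1 hv.1).mp h
      rw [this] at h1
      linarith
  have hκ2 : ⟪u, v⟫_ℝ ^ 2 < 1 := by nlinarith
  have g := gram (c := y - x) hu.1 hv.1 hκ2
  have g1 := hu.gap hx hy
  have g2 := hv.gap hx hy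
  have g3 := four_lt_sq hxy
  rw [norm_sub_rev y x] at g
  obtain ⟨κ, hκ'⟩ : ∃ a, a = ⟪u, v⟫_ℝ := ⟨_, rfl⟩
  obtain ⟨a, ha⟩ : ∃ a, a = ⟪y - x, u⟫_ℝ := ⟨_, rfl⟩
  obtain ⟨b, hb⟩ : ∃ a, a = ⟪y - x, v⟫_ℝ := ⟨_, rfl⟩
  obtain ⟨n, hn⟩ : ∃ a, a = ‖x - y‖ ^ 2 := ⟨_, rfl⟩
  rw [← hκ', ← ha, ← hb, ← hn] at g
  rw [← ha, ← hn] at g1
  rw [← hb, ← hn] at g2
  rw [← hn] at g3
  rw [← hκ'] at hκ
  rw [← ha] at h1
  rw [← hb] at h2
  rw [← hκ', ← ha, ← hb]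
  have e1 : 0 < -(2 * κ * a * b) := by
    have : 0 < 2 * κ * a * (-b) := by
      have : 0 < -b := by linarith
      positivity
    linarith
  have e2 : κ ^ 2 * 4 ≤ κ ^ 2 * n := mul_le_mul_of_nonneg_left g3.le (by positivity)
  constructor <;> linarith

/-- Comparison of two pairs along a line. -/
theorem two_pairs {p w x y x' y' : V} (hw : ‖w‖ = 1) (hx : fd x p w ≤ 1) (hy : fd y p w ≤ 1)
    (hx' : fd x' p w ≤ 1) (hy' : fd y' p w ≤ 1) (hxy : 2 < ‖x - y‖) (hxy' : 2 < ‖x' - y'‖) :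
    |⟪y - x, ((1 / 2 : ℝ) • (x' + y') - (1 / 2 : ℝ) • (x + y))⟫_ℝ
      - ⟪((1 / 2 : ℝ) • (x' + y') - (1 / 2 : ℝ) • (x + y)), w⟫_ℝ * ⟪y - x, w⟫_ℝ|
      ≤ |⟪y' - x', w⟫_ℝ| + ⟪y - x, w⟫_ℝ ^ 2 / 4 := by
  have d1 := norm_sub_sq_decomp hw x y p
  have d2 := norm_sub_sq_decomp hw x' y' p
  rw [← norm_zc_sq hw] at hx hy hx' hy'
  have f1 := four_lt_sq hxy
  have f2 := four_lt_sq hxy'
  obtain ⟨a, ha⟩ : ∃ a, a = zc x p w := ⟨_, rfl⟩
  obtain ⟨b, hb⟩ : ∃ a, a = zc y p w := ⟨_, rfl⟩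
  obtain ⟨a', ha'⟩ : ∃ a, a = zc x' p w := ⟨_, rfl⟩
  obtain ⟨b', hb'⟩ : ∃ a, a = zc y' p w := ⟨_, rfl⟩
  have e0 : ∀ z : V, z = p + (⟪z - p, w⟫_ℝ • w + zc z p w) := by
    intro z; unfold zc; abel
  have hperp : ∀ z, ⟪w, zc z p w⟫_ℝ = 0 := fun z => by
    rw [real_inner_comm]; exact inner_zc_self hw z p
  obtain ⟨s, hs⟩ : ∃ a, a = ⟪x - p, w⟫_ℝ := ⟨_, rfl⟩
  obtain ⟨t, ht⟩ : ∃ a, a = ⟪y - p, w⟫_ℝ := ⟨_, rfl⟩
  obtain ⟨s', hs'⟩ : ∃ a, a = ⟪x' - p, w⟫_ℝ := ⟨_, rfl⟩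
  obtain ⟨t', ht'⟩ : ∃ a, a = ⟪y' - p, w⟫_ℝ := ⟨_, rfl⟩
  have hxe : x = p + (s • w + a) := by rw [hs, ha]; exact e0 x
  have hye : y = p + (t • w + b) := by rw [ht, hb]; exact e0 y
  have hxe' : x' = p + (s' • w + a') := by rw [hs', ha']; exact e0 x'
  have hye' : y' = p + (t' • w + b') := by rw [ht', hb']; exact e0 y'
  have pa : ⟪w, a⟫_ℝ = 0 := by rw [ha]; exact hperp x
  have pb : ⟪w, b⟫_ℝ = 0 := by rw [hb]; exact hperp y
  have pa' : ⟪w, a'⟫_ℝ = 0 := by rw [ha']; exact hperp x'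
  have pb' : ⟪w, b'⟫_ℝ = 0 := by rw [hb']; exact hperp y'
  have hc : y - x = (t - s) • w + (b - a) := by rw [hye, hxe, sub_smul]; abel
  have hM : (1 / 2 : ℝ) • (x' + y') - (1 / 2 : ℝ) • (x + y)
      = ((s' + t') / 2 - (s + t) / 2) • w + ((1 / 2 : ℝ) • (a' + b') - (1 / 2 : ℝ) • (a + b)) := by
    rw [hxe, hye, hxe', hye']
    module
  have hc' : ⟪y' - x', w⟫_ℝ = t' - s' := by rw [inner_sub_base x' y' p w, ← hs', ← ht']
  have hcw : ⟪y - x, w⟫_ℝ = t - s := by rw [inner_sub_base x y p w, ← hs, ← ht]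
  have hMw : ⟪((1 / 2 : ℝ) • (x' + y') - (1 / 2 : ℝ) • (x + y)), w⟫_ℝ
      = (s' + t') / 2 - (s + t) / 2 := by
    rw [hM, inner_add_left, inner_smul_left, real_inner_self_eq_norm_sq, hw, inner_sub_left,
      inner_smul_left, inner_smul_left, inner_add_left, inner_add_left, real_inner_comm,
      real_inner_comm w b', real_inner_comm w a, real_inner_comm w b, pa, pb, pa', pb']
    simp
  have hmain : ⟪y - x, ((1 / 2 : ℝ) • (x' + y') - (1 / 2 : ℝ) • (x + y))⟫_ℝ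
      - ⟪((1 / 2 : ℝ) • (x' + y') - (1 / 2 : ℝ) • (x + y)), w⟫_ℝ * ⟪y - x, w⟫_ℝ
      = 1 / 2 * ⟪b - a, a' + b'⟫_ℝ - 1 / 2 * (‖b‖ ^ 2 - ‖a‖ ^ 2) := by
    rw [hMw, hcw, hM, hc]
    have q1 : ⟪w, (1 / 2 : ℝ) • (a' + b') - (1 / 2 : ℝ) • (a + b)⟫_ℝ = 0 := by
      rw [inner_sub_right, inner_smul_right, inner_smul_right, inner_add_right, inner_add_right,
        pa, pb, pa', pb']
      simp
    have q2 : ⟪b - a, w⟫_ℝ = 0 := by
      rw [real_inner_comm, inner_sub_right, pa, pb, sub_zero]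
    have q3 : ⟪b - a, (1 / 2 : ℝ) • (a' + b') - (1 / 2 : ℝ) • (a + b)⟫_ℝ
        = 1 / 2 * ⟪b - a, a' + b'⟫_ℝ - 1 / 2 * (‖b‖ ^ 2 - ‖a‖ ^ 2) := by
      rw [inner_sub_right, inner_smul_right, inner_smul_right]
      have : ⟪b - a, a + b⟫_ℝ = ‖b‖ ^ 2 - ‖a‖ ^ 2 := by
        rw [inner_sub_left, inner_add_right, inner_add_right, real_inner_self_eq_norm_sq,
          real_inner_self_eq_norm_sq, real_inner_comm a b]
        ring
      rw [this]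
    rw [inner_add_left, inner_smul_left, inner_add_right, inner_smul_right, q1, inner_add_right,
      inner_smul_right, q2, q3, real_inner_self_eq_norm_sq, hw]
    simp only [conj_trivial]
    ring
  rw [hmain, hc', hcw]
  rw [← ha] at hx
  rw [← hb] at hy
  rw [← ha'] at hx'
  rw [← hb'] at hy'
  rw [← ha, ← hb, ← hs, ← ht] at d1
  rw [← ha', ← hb', ← hs', ← ht'] at d2
  have b1 : ‖b - a‖ ≤ 2 := by
    have h1 := norm_sub_le b a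
    have h2 := norm_nonneg a
    have h3 := norm_nonneg b
    have h4 : ‖a‖ ≤ 1 := by nlinarith
    have h5 : ‖b‖ ≤ 1 := by nlinarith
    linarith
  have b2 : ‖a' + b'‖ ≤ |t' - s'| := by
    have h1 := para a' b'
    have h2 : ‖a' + b'‖ ^ 2 ≤ |t' - s'| ^ 2 := by
      rw [sq_abs]
      have : (t' - s') ^ 2 = (s' - t') ^ 2 := by ring
      rw [this]
      linarith
    exact (sq_le_sq₀ (norm_nonneg _) (abs_nonneg _)).mp h2
  have b3 : |⟪b - a, a' + b'⟫_ℝ| ≤ 2 * |t' - s'| :=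
    (abs_real_inner_le_norm _ _).trans
      (mul_le_mul b1 b2 (norm_nonneg _) (by norm_num))
  have b4 : ‖a - b‖ ^ 2 ≤ 2 * ‖a‖ ^ 2 + 2 * ‖b‖ ^ 2 := by
    have := para a b
    have h2 : 0 ≤ ‖a + b‖ ^ 2 := by positivity
    linarith
  have hsq : (t - s) ^ 2 = (s - t) ^ 2 := by ring
  obtain ⟨b5, b6⟩ := abs_le.mp b3
  rw [abs_le, hsq]
  constructor <;> linarith

/-- The swap inequality for two well separated swapped pairs gives a contradiction. -/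
theorem two_swaps_false {H : Finset V} {p u q v x y x' y' : V} {L : ℝ} (hL : 4 / 3 ≤ L)
    (hu : UT H p u) (hv : UT H q v) (hx : x ∈ H) (hy : y ∈ H) (hx' : x' ∈ H) (hy' : y' ∈ H)
    (hxy : 2 < ‖x - y‖) (hxy' : 2 < ‖x' - y'‖)
    (ha : 0 < ⟪y - x, u⟫_ℝ) (hb : ⟪y - x, v⟫_ℝ < 0) (ha' : 0 < ⟪y' - x', u⟫_ℝ)
    (hb' : ⟪y' - x', v⟫_ℝ < 0) (haL : ⟪y - x, u⟫_ℝ < L) (hbL : -⟪y - x, v⟫_ℝ < L)
    (haL' : ⟪y' - x', u⟫_ℝ < L) (hbL' : -⟪y' - x', v⟫_ℝ < L)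
    (hMu : L < ⟪((1 / 2 : ℝ) • (x' + y') - (1 / 2 : ℝ) • (x + y)), u⟫_ℝ)
    (hMv : L < ⟪((1 / 2 : ℝ) • (x' + y') - (1 / 2 : ℝ) • (x + y)), v⟫_ℝ) : False := by
  have i1 := two_pairs hu.1 (hu.2 x hx) (hu.2 y hy) (hu.2 x' hx') (hu.2 y' hy') hxy hxy'
  have i2 := two_pairs hv.1 (hv.2 x hx) (hv.2 y hy) (hv.2 x' hx') (hv.2 y' hy') hxy hxy'
  have i3 := two_pairs hu.1 (hu.2 x' hx') (hu.2 y' hy') (hu.2 x hx) (hu.2 y hy) hxy' hxy
  have i4 := two_pairs hv.1 (hv.2 x' hx') (hv.2 y' hy') (hv.2 x hx) (hv.2 y hy) hxy' hxy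
  have hneg : (1 / 2 : ℝ) • (x + y) - (1 / 2 : ℝ) • (x' + y')
      = -((1 / 2 : ℝ) • (x' + y') - (1 / 2 : ℝ) • (x + y)) := by abel
  rw [hneg, inner_neg_left, inner_neg_right] at i3 i4
  obtain ⟨M, hM⟩ : ∃ M : V, M = (1 / 2 : ℝ) • (x' + y') - (1 / 2 : ℝ) • (x + y) := ⟨_, rfl⟩
  rw [← hM] at i1 i2 i3 i4 hMu hMv
  obtain ⟨a, hae⟩ : ∃ a, a = ⟪y - x, u⟫_ℝ := ⟨_, rfl⟩
  obtain ⟨b, hbe⟩ : ∃ a, a = ⟪y - x, v⟫_ℝ := ⟨_, rfl⟩
  obtain ⟨a', hae'⟩ : ∃ a, a = ⟪y' - x', u⟫_ℝ := ⟨_, rfl⟩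
  obtain ⟨b', hbe'⟩ : ∃ a, a = ⟪y' - x', v⟫_ℝ := ⟨_, rfl⟩
  obtain ⟨mu, hmu⟩ : ∃ a, a = ⟪M, u⟫_ℝ := ⟨_, rfl⟩
  obtain ⟨mv, hmv⟩ : ∃ a, a = ⟪M, v⟫_ℝ := ⟨_, rfl⟩
  obtain ⟨cM, hcM⟩ : ∃ a, a = ⟪y - x, M⟫_ℝ := ⟨_, rfl⟩
  obtain ⟨cM', hcM'⟩ : ∃ a, a = ⟪y' - x', M⟫_ℝ := ⟨_, rfl⟩
  rw [← hae] at i1 ha haL
  rw [← hae] at i3
  rw [← hbe] at i2 hb hbL
  rw [← hbe] at i4
  rw [← hae'] at i3 ha' haL'
  rw [← hae'] at i1
  rw [← hbe'] at i4 hb' hbL'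
  rw [← hbe'] at i2
  rw [← hmu] at i1 i3 hMu
  rw [← hmv] at i2 i4 hMv
  rw [← hcM] at i1 i2
  rw [← hcM'] at i3 i4
  rw [abs_of_pos ha'] at i1
  rw [abs_of_neg hb'] at i2
  rw [abs_of_pos ha] at i3
  rw [abs_of_neg hb] at i4
  have j1 := (abs_le.mp i1).1
  have j2 := (abs_le.mp i2).2
  have j3 := (abs_le.mp i3).2
  have j4 := (abs_le.mp i4).1
  -- products
  have k1 : L * a ≤ mu * a := mul_le_mul_of_nonneg_right hMu.le ha.le
  have k2 : L * (-b) ≤ mv * (-b) := mul_le_mul_of_nonneg_right hMv.le (by linarith)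
  have k3 : L * a' ≤ mu * a' := mul_le_mul_of_nonneg_right hMu.le ha'.le
  have k4 : L * (-b') ≤ mv * (-b') := mul_le_mul_of_nonneg_right hMv.le (by linarith)
  have l1 : a ^ 2 ≤ L * a := by nlinarith
  have l2 : b ^ 2 ≤ L * (-b) := by nlinarith
  have l3 : a' ^ 2 ≤ L * a' := by nlinarith
  have l4 : b' ^ 2 ≤ L * (-b') := by nlinarith
  have m1 : 4 / 3 * (a + (-b) + a' + (-b')) ≤ L * (a + (-b) + a' + (-b')) :=
    mul_le_mul_of_nonneg_right hL (by linarith)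
  -- equality case is excluded by strictness of the first bound
  have k1' : L * a < mu * a := mul_lt_mul_of_pos_right hMu ha
  linarith

/-- Two unit transversals differ in at most one pair. -/
theorem swap_unique {H : Finset V} {p u q v : V} {L : ℝ} (hL : 4 / 3 ≤ L)
    (hT : TripGap H L) (hsep : ∀ x ∈ H, ∀ y ∈ H, x ≠ y → 2 < ‖x - y‖)
    (hu : UT H p u) (hv : UT H q v) (hκ : 0 < ⟪u, v⟫_ℝ)
    (hκL : 4 * (1 - ⟪u, v⟫_ℝ ^ 2) ≤ L ^ 2) :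
    ∀ x ∈ H, ∀ y ∈ H, ∀ x' ∈ H, ∀ y' ∈ H, ⟪x, u⟫_ℝ < ⟪y, u⟫_ℝ → ⟪y, v⟫_ℝ < ⟪x, v⟫_ℝ →
      ⟪x', u⟫_ℝ < ⟪y', u⟫_ℝ → ⟪y', v⟫_ℝ < ⟪x', v⟫_ℝ → x = x' ∧ y = y' := by
  obtain ⟨s, hs⟩ : ∃ s : V → ℝ, ∀ z, s z = ⟪z, u⟫_ℝ := ⟨_, fun _ => rfl⟩
  obtain ⟨t, ht⟩ : ∃ t : V → ℝ, ∀ z, t z = ⟪z, v⟫_ℝ := ⟨_, fun _ => rfl⟩
  simp only [← hs, ← ht]
  have hsu : ∀ x y, ⟪y - x, u⟫_ℝ = s y - s x := fun x y => by rw [inner_sub_left, hs, hs]
  have htv : ∀ x y, ⟪y - x, v⟫_ℝ = t y - t x := fun x y => by rw [inner_sub_left, ht, ht]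
  have hBs : ∀ x ∈ H, ∀ y ∈ H, ∀ z ∈ H, x ≠ y → y ≠ z → x ≠ z → s x ≤ s y → s y ≤ s z →
      L < s z - s x := by
    intro x hx y hy z hz h1 h2 h3 h4 h5
    have := hT p u hu x hx y hy z hz h1 h2 h3
    simp only [← hs] at this
    exact this h4 h5
  have hBt : ∀ x ∈ H, ∀ y ∈ H, ∀ z ∈ H, x ≠ y → y ≠ z → x ≠ z → t x ≤ t y → t y ≤ t z →
      L < t z - t x := by
    intro x hx y hy z hz h1 h2 h3 h4 h5
    have := hT q v hv x hx y hy z hz h1 h2 h3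
    simp only [← ht] at this
    exact this h4 h5
  have hL0 : 0 < L := by linarith
  have hsmall : ∀ x ∈ H, ∀ y ∈ H, s x < s y → t y < t x → s y - s x < L ∧ t x - t y < L := by
    intro x hx y hy h1 h2
    have hne : x ≠ y := by rintro rfl; exact lt_irrefl _ h1
    have h3 := swapped_small hu hv hx hy (hsep x hx y hy hne) hκ (by rw [hsu]; linarith)
      (by rw [htv]; linarith)
    rw [hsu, htv] at h3
    constructor
    · exact lt_of_pow_lt_pow_left₀ 2 hL0.le (by linarith [h3.1])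
    · have : (t x - t y) ^ 2 = (t y - t x) ^ 2 := by ring
      exact lt_of_pow_lt_pow_left₀ 2 hL0.le (by rw [this]; linarith [h3.2])
  have hA : ∀ x ∈ H, ∀ y ∈ H, s x < s y → t y < t x → ∀ z ∈ H, z ≠ x → z ≠ y →
      s x ≤ s z → s z ≤ s y → False := by
    intro x hx y hy h1 h2 z hz hzx hzy h3 h4
    have hne : x ≠ y := by rintro rfl; exact lt_irrefl _ h1
    have h5 := hBs x hx z hz y hy hzx.symm hzy hne h3 h4
    have h6 := (hsmall x hx y hy h1 h2).1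
    linarith
  -- the main case: the two pairs are consecutive
  have hmain : ∀ x ∈ H, ∀ y ∈ H, ∀ x' ∈ H, ∀ y' ∈ H, s x < s y → t y < t x →
      s x' < s y' → t y' < t x' → s y < s x' → False := by
    intro x hx y hy x' hx' y' hy' h1 h2 h3 h4 h5
    have nxy : x ≠ y := by rintro rfl; exact lt_irrefl _ h1
    have nxy' : x' ≠ y' := by rintro rfl; exact lt_irrefl _ h3
    have nyx' : y ≠ x' := by rintro rfl; exact lt_irrefl _ h5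
    have nxx' : x ≠ x' := by rintro rfl; linarith
    have nyy' : y ≠ y' := by rintro rfl; linarith
    have nxy2 : x ≠ y' := by rintro rfl; linarith
    have t1 : t x ≤ t x' := by
      by_contra h
      rw [not_le] at h
      exact hA x hx x' hx' (by linarith) h y hy nxy.symm nyx' h1.le h5.le
    have t2 : t y ≤ t y' := by
      by_contra h
      rw [not_le] at h
      exact hA y hy y' hy' (by linarith) h x' hx' nyx'.symm nxy' h5.le h3.le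
    have t3 : t x ≤ t y' := by
      by_contra h
      rw [not_le] at h
      exact hA x hx y' hy' (by linarith) h y hy nxy.symm nyy' h1.le (by linarith)
    have s1 := hBs x hx y hy x' hx' nxy nyx' nxx' h1.le h5.le
    have s2 := hBs y hy x' hx' y' hy' nyx' nxy' nyy' h5.le h3.le
    have s3 := hBt y hy x hx y' hy' nxy.symm nxy2 nyy' h2.le t3
    have s4 := hBt x hx y' hy' x' hx' nxy2 nxy'.symm nxx' t3 h4.le
    have e1 := hsmall x hx y hy h1 h2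
    have e2 := hsmall x' hx' y' hy' h3 h4
    have mu : ⟪((1 / 2 : ℝ) • (x' + y') - (1 / 2 : ℝ) • (x + y)), u⟫_ℝ
        = 1 / 2 * (s x' + s y') - 1 / 2 * (s x + s y) := by
      rw [inner_sub_left, inner_smul_left, inner_smul_left, inner_add_left, inner_add_left,
        ← hs, ← hs, ← hs, ← hs]
      simp
    have mv : ⟪((1 / 2 : ℝ) • (x' + y') - (1 / 2 : ℝ) • (x + y)), v⟫_ℝ
        = 1 / 2 * (t x' + t y') - 1 / 2 * (t x + t y) := by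
      rw [inner_sub_left, inner_smul_left, inner_smul_left, inner_add_left, inner_add_left,
        ← ht, ← ht, ← ht, ← ht]
      simp
    refine two_swaps_false hL hu hv hx hy hx' hy' (hsep x hx y hy nxy) (hsep x' hx' y' hy' nxy')
      ?_ ?_ ?_ ?_ ?_ ?_ ?_ ?_ ?_ ?_
    · rw [hsu]; linarith
    · rw [htv]; linarith
    · rw [hsu]; linarith
    · rw [htv]; linarith
    · rw [hsu]; linarith [e1.1]
    · rw [htv]; linarith [e1.2]
    · rw [hsu]; linarith [e2.1]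
    · rw [htv]; linarith [e2.2]
    · rw [mu]; linarith
    · rw [mv]; linarith
  intro x hx y hy x' hx' y' hy' h1 h2 h3 h4
  have nxy : x ≠ y := by rintro rfl; exact lt_irrefl _ h1
  have nxy' : x' ≠ y' := by rintro rfl; exact lt_irrefl _ h3
  by_cases hxx : x = x'
  · refine ⟨hxx, ?_⟩
    by_contra hyy
    rw [← hxx] at h3 h4 nxy' hx'
    rcases le_total (s y) (s y') with h | h
    · exact hA x hx y' hy' h3 h4 y hy nxy.symm hyy h1.le h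
    · exact hA x hx y hy h1 h2 y' hy' nxy'.symm (fun e => hyy e.symm) h3.le h
  · exfalso
    by_cases hyy : y = y'
    · rw [← hyy] at h3 h4 nxy' hy'
      rcases le_total (s x) (s x') with h | h
      · exact hA x hx y hy h1 h2 x' hx' (fun e => hxx e.symm) nxy' h h3.le
      · exact hA x' hx' y hy h3 h4 x hx hxx nxy h h1.le
    · by_cases hyx : y = x'
      · rw [← hyx] at h3 h4 nxy' hx'
        exact hA x hx y' hy' (by linarith) (by linarith) y hy nxy.symm hyy h1.le h3.le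
      · by_cases hxy2 : x = y'
        · rw [← hxy2] at h3 h4 nxy' hy'
          exact hA x' hx' y hy (by linarith) (by linarith) x hx hxx nxy h3.le h1.le
        · -- four distinct points
          rcases lt_or_ge (s y) (s x') with h | h
          · exact hmain x hx y hy x' hx' y' hy' h1 h2 h3 h4 h
          · -- then `s x' < s x`
            have g1 : s x' < s x := by
              by_contra g
              rw [not_lt] at g
              exact hA x hx y hy h1 h2 x' hx' (fun e => hxx e.symm) (fun e => hyx e.symm) g h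
            rcases lt_or_ge (s y') (s x) with g2 | g2
            · exact hmain x' hx' y' hy' x hx y hy h3 h4 h1 h2 g2
            · exact hA x' hx' y' hy' h3 h4 x hx hxx hxy2 g1.le g2

end Pool.Agent.H44.Danzer
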