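import Mathlib
import Pool.Agent.H44.Danzer.Swap2

set_option autoImplicit false

open scoped InnerProductSpace Topology

namespace Pool.Agent.H44.Danzer

variable {V : Type*} [NormedAddCommGroup V] [InnerProductSpace ℝ V]

omit [NormedAddCommGroup V] [InnerProductSpace ℝ V] in
/-- Many points are spread far along a transversal. -/
theorem far {s : V → ℝ} {L : ℝ} : ∀ (k : ℕ) (H : Finset V),
    (∀ x ∈ H, ∀ y ∈ H, ∀ z ∈ H, x ≠ y → y ≠ z → x ≠ z → s x ≤ s y → s y ≤ s z →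
      L < s z - s x) → 2 * k + 1 ≤ H.card → ∃ x ∈ H, ∃ y ∈ H, (k : ℝ) * L ≤ s y - s x := by
  classical
  intro k
  induction k with
  | zero =>
    intro H _ hc
    obtain ⟨x, hx⟩ := Finset.card_pos.mp (by omega : 0 < H.card)
    exact ⟨x, hx, x, hx, by simp⟩
  | succ k ih =>
    intro H hB hc
    obtain ⟨x0, hx0, hmin0⟩ := Finset.exists_min_image H s (Finset.card_pos.mp (by omega))
    have hc1 : (H.erase x0).card = H.card - 1 := Finset.card_erase_of_mem hx0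
    obtain ⟨x1, hx1, hmin1⟩ := Finset.exists_min_image (H.erase x0) s
      (Finset.card_pos.mp (by omega))
    have hc2 : ((H.erase x0).erase x1).card = H.card - 1 - 1 := by
      rw [Finset.card_erase_of_mem hx1, hc1]
    have hsub : ∀ z ∈ (H.erase x0).erase x1, z ∈ H ∧ z ≠ x0 ∧ z ≠ x1 := by
      intro z hz
      rw [Finset.mem_erase, Finset.mem_erase] at hz
      exact ⟨hz.2.2, hz.2.1, hz.1⟩
    obtain ⟨x, hx, y, hy, hxy⟩ := ih ((H.erase x0).erase x1)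
      (fun x hx y hy z hz => hB x (hsub x hx).1 y (hsub y hy).1 z (hsub z hz).1) (by omega)
    refine ⟨x0, hx0, y, (hsub y hy).1, ?_⟩
    have hx1' := Finset.mem_erase.mp hx1
    have h1 := hB x0 hx0 x1 hx1'.2 x (hsub x hx).1 hx1'.1.symm (hsub x hx).2.2.symm
      (hsub x hx).2.1.symm (hmin0 x1 hx1'.2)
      (hmin1 x (Finset.mem_erase.mpr ⟨(hsub x hx).2.1, (hsub x hx).1⟩))
    push_cast
    linarith

theorem tripGap_sqrt_two {H : Finset V} (hsep : ∀ x ∈ H, ∀ y ∈ H, x ≠ y → 2 < ‖x - y‖) :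
    TripGap H (Real.sqrt 2) := by
  intro p w h x hx y hy z hz hxy hyz hxz h1 h2
  have h3 := gap_sqrt_two h.1 (h.2 x hx) (h.2 y hy) (h.2 z hz) (hsep x hx y hy hxy)
    (hsep y hy z hz hyz) (hsep x hx z hz hxz) (by rw [inner_sub_left]; linarith)
    (by rw [inner_sub_left]; linarith)
  rwa [inner_sub_left] at h3

/-- Sets of at least nine separated points are good. -/
theorem good_nine {H : Finset V} (hsep : ∀ x ∈ H, ∀ y ∈ H, x ≠ y → 2 < ‖x - y‖)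
    (hc : 9 ≤ H.card) : Good H := by
  intro p u q v hu hv
  have hT := tripGap_sqrt_two hsep
  have hs2 : Real.sqrt 2 ^ 2 = 2 := Real.sq_sqrt (by norm_num)
  have hs0 : 0 ≤ Real.sqrt 2 := Real.sqrt_nonneg 2
  have key : 3 / 4 ≤ |⟪u, v⟫_ℝ| := by
    by_contra hcon
    rw [not_le] at hcon
    obtain ⟨x, hx, y, hy, hxy⟩ := far (s := fun z => ⟪z, u⟫_ℝ) (L := Real.sqrt 2) 4 H
      (fun x hx y hy z hz h1 h2 h3 h4 h5 => hT p u hu x hx y hy z hz h1 h2 h3 h4 h5) (by omega)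
    simp only [← inner_sub_left] at hxy
    have hκ2 : ⟪u, v⟫_ℝ ^ 2 < 1 := by
      rw [← sq_abs]
      have := abs_nonneg ⟪u, v⟫_ℝ
      nlinarith
    have g := gram (c := y - x) hu.1 hv.1 hκ2
    have g1 := hu.gap hx hy
    have g2 := hv.gap hx hy
    rw [norm_sub_rev x y] at g1 g2
    have n1 : ⟪y - x, u⟫_ℝ ≤ ‖y - x‖ := by
      have := real_inner_le_norm (y - x) u
      rwa [hu.1, mul_one] at this
    obtain ⟨κ, hκ⟩ : ∃ a, a = ⟪u, v⟫_ℝ := ⟨_, rfl⟩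
    obtain ⟨a, ha⟩ : ∃ a, a = ⟪y - x, u⟫_ℝ := ⟨_, rfl⟩
    obtain ⟨b, hb⟩ : ∃ a, a = ⟪y - x, v⟫_ℝ := ⟨_, rfl⟩
    obtain ⟨n, hn⟩ : ∃ a, a = ‖y - x‖ := ⟨_, rfl⟩
    rw [← hκ, ← ha, ← hb, ← hn] at g
    rw [← ha, ← hn] at g1 n1
    rw [← hb, ← hn] at g2
    rw [← hκ] at hcon hκ2
    rw [← ha] at hxy
    push_cast at hxy
    have n2 : 32 ≤ n ^ 2 := by
      have h1 : (4 * Real.sqrt 2) ^ 2 ≤ n ^ 2 := pow_le_pow_left₀ (by positivity) (by linarith) 2
      nlinarith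
    have c1 : κ * (2 * a * b) ≤ |κ| * (a ^ 2 + b ^ 2) := by
      have h1 : κ * (2 * a * b) ≤ |κ * (2 * a * b)| := le_abs_self _
      rw [abs_mul] at h1
      have h2 : |2 * a * b| ≤ a ^ 2 + b ^ 2 := by
        rw [abs_le]; constructor <;> nlinarith [sq_nonneg (a + b), sq_nonneg (a - b)]
      exact h1.trans (mul_le_mul_of_nonneg_left h2 (abs_nonneg _))
    have c2 : (1 - |κ|) * (2 * (n ^ 2 - 4)) ≤ (1 - |κ|) * (a ^ 2 + b ^ 2) :=
      mul_le_mul_of_nonneg_left (by linarith) (by linarith)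
    have c3 : 1 - κ ^ 2 = (1 - |κ|) * (1 + |κ|) := by rw [← sq_abs κ]; ring
    rw [c3] at g
    have c4 : (1 - |κ|) * (2 * (n ^ 2 - 4)) ≤ (1 - |κ|) * (n ^ 2 * (1 + |κ|)) := by linarith
    have c5 := le_of_mul_le_mul_left c4 (by linarith : (0:ℝ) < 1 - |κ|)
    nlinarith [abs_nonneg κ]
  refine ⟨by linarith, fun hκ => ?_⟩
  rw [abs_of_pos hκ] at key
  exact swap_unique (L := Real.sqrt 2)
    (by
      by_contra h
      rw [not_le] at h
      nlinarith) hT hsep hu hv hκ (by rw [hs2]; nlinarith)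

/-! ### The plane -/

abbrev P2 := EuclideanSpace ℝ (Fin 2)

/-- rotated inner product -/
def cr (c w : P2) : ℝ := c 1 * w 0 - c 0 * w 1

theorem ip2 (c w : P2) : ⟪c, w⟫_ℝ = c 0 * w 0 + c 1 * w 1 := by
  rw [EuclideanSpace.inner_eq_star_dotProduct]
  simp [dotProduct, Fin.sum_univ_two]
  ring

theorem nsq2 (c : P2) : ‖c‖ ^ 2 = c 0 ^ 2 + c 1 ^ 2 := by
  rw [← real_inner_self_eq_norm_sq, ip2]; ring

theorem cr_sub (x y w : P2) : cr (x - y) w = cr x w - cr y w := by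
  unfold cr; simp only [PiLp.sub_apply]; ring

theorem fd2 {c p w : P2} (hw : ‖w‖ = 1) : fd c p w = cr (c - p) w ^ 2 := by
  have h : ‖w‖ ^ 2 = 1 := by rw [hw]; norm_num
  rw [nsq2] at h
  unfold fd cr
  rw [ip2, nsq2]
  linear_combination (-(c - p) 0 ^ 2 - (c - p) 1 ^ 2) * h

theorem dist2 {c w : P2} (hw : ‖w‖ = 1) : ‖c‖ ^ 2 = ⟪c, w⟫_ℝ ^ 2 + cr c w ^ 2 := by
  have h : ‖w‖ ^ 2 = 1 := by rw [hw]; norm_num
  rw [nsq2] at h
  unfold cr
  rw [ip2, nsq2]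
  linear_combination (-c 0 ^ 2 - c 1 ^ 2) * h

theorem gram2 {u v c : P2} (hu : ‖u‖ = 1) (hv : ‖v‖ = 1) :
    ‖c‖ ^ 2 * (1 - ⟪u, v⟫_ℝ ^ 2) = cr c u ^ 2 + cr c v ^ 2 - 2 * ⟪u, v⟫_ℝ * cr c u * cr c v := by
  have h1 : ‖u‖ ^ 2 = 1 := by rw [hu]; norm_num
  have h2 : ‖v‖ ^ 2 = 1 := by rw [hv]; norm_num
  rw [nsq2] at h1 h2
  have e1 : 1 - ⟪u, v⟫_ℝ ^ 2 = (u 0 ^ 2 + u 1 ^ 2) * (v 0 ^ 2 + v 1 ^ 2) - ⟪u, v⟫_ℝ ^ 2 := by
    rw [h1, h2]; ring
  have e2 : cr c u ^ 2 + cr c v ^ 2 - 2 * ⟪u, v⟫_ℝ * cr c u * cr c v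
      = cr c u ^ 2 * (v 0 ^ 2 + v 1 ^ 2) + cr c v ^ 2 * (u 0 ^ 2 + u 1 ^ 2)
        - 2 * ⟪u, v⟫_ℝ * cr c u * cr c v := by
    rw [h1, h2]; ring
  rw [e1, e2, ip2, nsq2]
  unfold cr
  ring

theorem tripGap_sqrt_three {H : Finset P2} (hsep : ∀ x ∈ H, ∀ y ∈ H, x ≠ y → 2 < ‖x - y‖) :
    TripGap H (Real.sqrt 3) := by
  intro p w h x hx y hy z hz hxy hyz hxz h1 h2
  have hb : ∀ c ∈ H, -1 ≤ cr (c - p) w ∧ cr (c - p) w ≤ 1 := by
    intro c hc
    have h3 := h.2 c hc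
    rw [fd2 h.1] at h3
    exact abs_le_one_iff_mul_self_le_one.mpr (by nlinarith) |> abs_le.mp
  have hd : ∀ c ∈ H, ∀ c' ∈ H, c ≠ c' → |cr (c - p) w - cr (c' - p) w| ≤ 1 →
      3 < (⟪c', w⟫_ℝ - ⟪c, w⟫_ℝ) ^ 2 := by
    intro c hc c' hc' hcc h3
    have h4 := four_lt_sq (hsep c hc c' hc' hcc)
    rw [dist2 h.1 (c := c - c'), inner_sub_left] at h4
    have h5 : cr (c - c') w = cr (c - p) w - cr (c' - p) w := by
      rw [cr_sub, cr_sub, cr_sub]; ring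
    rw [h5] at h4
    have h6 : (cr (c - p) w - cr (c' - p) w) ^ 2 ≤ 1 := by
      rw [← sq_abs]
      have := abs_nonneg (cr (c - p) w - cr (c' - p) w)
      nlinarith
    nlinarith
  have hcase : |cr (x - p) w - cr (y - p) w| ≤ 1 ∨ |cr (y - p) w - cr (z - p) w| ≤ 1 ∨
      |cr (x - p) w - cr (z - p) w| ≤ 1 := by
    by_contra hcon
    push Not at hcon
    obtain ⟨k1, k2, k3⟩ := hcon
    have bx := hb x hx
    have bby := hb y hy
    have bz := hb z hz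
    rw [lt_abs] at k1 k2 k3
    rcases k1 with k1 | k1 <;> rcases k2 with k2 | k2 <;> rcases k3 with k3 | k3 <;> linarith
  have h3 : 0 ≤ ⟪z, w⟫_ℝ - ⟪x, w⟫_ℝ := by linarith
  rw [← Real.sqrt_sq h3]
  apply Real.sqrt_lt_sqrt (by norm_num)
  rcases hcase with k | k | k
  · have := hd x hx y hy hxy k
    nlinarith
  · have := hd y hy z hz hyz k
    nlinarith
  · exact hd x hx z hz hxz k

/-- Sets of at least five separated points in the plane are good. -/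
theorem good_five {H : Finset P2} (hsep : ∀ x ∈ H, ∀ y ∈ H, x ≠ y → 2 < ‖x - y‖)
    (hc : 5 ≤ H.card) : Good H := by
  classical
  intro p u q v hu hv
  have hT := tripGap_sqrt_three hsep
  have hs2 : Real.sqrt 3 ^ 2 = 3 := Real.sq_sqrt (by norm_num)
  have hs0 : 0 ≤ Real.sqrt 3 := Real.sqrt_nonneg 3
  have hb : ∀ {r w : P2}, UT H r w → ∀ c ∈ H, -1 ≤ cr (c - r) w ∧ cr (c - r) w ≤ 1 := by
    intro r w h c hc
    have h3 := h.2 c hc
    rw [fd2 h.1] at h3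
    exact abs_le_one_iff_mul_self_le_one.mpr (by nlinarith) |> abs_le.mp
  have key : 1 / 2 < |⟪u, v⟫_ℝ| := by
    by_contra hcon
    rw [not_lt] at hcon
    obtain ⟨x, hx, y, hy, hne, hf⟩ := Finset.exists_ne_map_eq_of_card_lt_of_maps_to
      (s := H) (t := (Finset.univ : Finset (Prop × Prop)).image id)
      (f := fun z => ((0 ≤ cr (z - p) u), (0 ≤ cr (z - q) v)))
      (by
        have : (Finset.univ : Finset (Prop × Prop)).card = 4 := by simp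
        rw [Finset.image_id, this]; omega) (by intro z _; simp)
    simp only [Prod.mk.injEq, eq_iff_iff] at hf
    obtain ⟨f1, f2⟩ := hf
    have bx := hb hu x hx
    have bby := hb hu y hy
    have bx' := hb hv x hx
    have bby' := hb hv y hy
    have g := gram2 (c := x - y) hu.1 hv.1
    have h4 := four_lt_sq (hsep x hx y hy hne)
    have e1 : cr (x - y) u = cr (x - p) u - cr (y - p) u := by
      rw [cr_sub, cr_sub, cr_sub]; ring
    have e2 : cr (x - y) v = cr (x - q) v - cr (y - q) v := by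
      rw [cr_sub, cr_sub, cr_sub]; ring
    have d1 : cr (x - y) u ^ 2 ≤ 1 := by
      rw [e1]
      by_cases h : 0 ≤ cr (x - p) u
      · have h' := f1.mp h
        nlinarith
      · have h' : ¬ 0 ≤ cr (y - p) u := fun h'' => h (f1.mpr h'')
        rw [not_le] at h h'
        nlinarith
    have d2 : cr (x - y) v ^ 2 ≤ 1 := by
      rw [e2]
      by_cases h : 0 ≤ cr (x - q) v
      · have h' := f2.mp h
        nlinarith
      · have h' : ¬ 0 ≤ cr (y - q) v := fun h'' => h (f2.mpr h'')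
        rw [not_le] at h h'
        nlinarith
    obtain ⟨a, ha⟩ : ∃ a, a = cr (x - y) u := ⟨_, rfl⟩
    obtain ⟨b, hb⟩ : ∃ a, a = cr (x - y) v := ⟨_, rfl⟩
    obtain ⟨κ, hκ⟩ : ∃ a, a = ⟪u, v⟫_ℝ := ⟨_, rfl⟩
    obtain ⟨n, hn⟩ : ∃ a, a = ‖x - y‖ ^ 2 := ⟨_, rfl⟩
    rw [← hκ, ← ha, ← hb, ← hn] at g
    rw [← ha] at d1
    rw [← hb] at d2
    rw [← hn] at h4
    rw [← hκ] at hcon
    have c1 : -(2 * κ * a * b) ≤ |κ| * (a ^ 2 + b ^ 2) := by
      have h1 : -(2 * κ * a * b) ≤ |2 * κ * a * b| := neg_le_abs _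
      have h1' : |2 * κ * a * b| = |κ| * |2 * a * b| := by rw [← abs_mul]; congr 1; ring
      have h2 : |2 * a * b| ≤ a ^ 2 + b ^ 2 := by
        rw [abs_le]; constructor <;> nlinarith [sq_nonneg (a + b), sq_nonneg (a - b)]
      rw [h1'] at h1
      exact h1.trans (mul_le_mul_of_nonneg_left h2 (abs_nonneg _))
    have c3 : 1 - κ ^ 2 = (1 - |κ|) * (1 + |κ|) := by rw [← sq_abs κ]; ring
    have c4 : n * ((1 - |κ|) * (1 + |κ|)) ≤ 2 * (1 + |κ|) := by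
      rw [← c3, g]
      have : |κ| * (a ^ 2 + b ^ 2) ≤ |κ| * 2 :=
        mul_le_mul_of_nonneg_left (by linarith) (abs_nonneg _)
      linarith
    have c5 : (n * (1 - |κ|)) * (1 + |κ|) ≤ 2 * (1 + |κ|) := by linarith
    have c6 := le_of_mul_le_mul_right c5 (by linarith [abs_nonneg κ] : (0:ℝ) < 1 + |κ|)
    nlinarith
  refine ⟨key, fun hκ => ?_⟩
  rw [abs_of_pos hκ] at key
  exact swap_unique (L := Real.sqrt 3)
    (by
      by_contra h
      rw [not_le] at h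
      nlinarith) hT hsep hu hv hκ (by rw [hs2]; nlinarith)

end Pool.Agent.H44.Danzer
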