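import Mathlib
import Pool.Agent.H44.Danzer.Good

set_option autoImplicit false

open scoped InnerProductSpace Topology

namespace Pool.Agent.H44.Danzer

variable {V : Type*} [NormedAddCommGroup V] [InnerProductSpace ℝ V]

/-- the empty relation -/
def R0 : V → V → Prop := fun _ _ => False

/-- `x, y` is a swapped pair for the directions `u, v` -/
def Sw (u v x y : V) : Prop := ⟪x, u⟫_ℝ < ⟪y, u⟫_ℝ ∧ ⟪y, v⟫_ℝ < ⟪x, v⟫_ℝ

theorem Hit.flip {H : Finset V} {μ : ℝ} {p w : V} (h : Hit H μ R0 p w) : Hit H μ R0 p (-w) :=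
  ⟨by rw [norm_neg]; exact h.1, fun c hc => by rw [fd_neg]; exact h.2.1 c hc,
    fun _ _ _ _ hr => hr.elim⟩

theorem Hit.r0 {H : Finset V} {μ : ℝ} {Rel : V → V → Prop} {p w : V} (h : Hit H μ Rel p w) :
    Hit H μ R0 p w := ⟨h.1, h.2.1, fun _ _ _ _ hr => hr.elim⟩

theorem Hit.ut {H T : Finset V} {μ : ℝ} {Rel : V → V → Prop} {p w : V} (h : Hit T μ Rel p w)
    (hμ : μ ≤ 1) (hH : H ⊆ T) : UT H p w := ⟨h.1, fun c hc => (h.2.1 c (hH hc)).trans hμ⟩

theorem UT.ne {H : Finset V} {p w x y : V} (h : UT H p w)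
    (hx : x ∈ H) (hy : y ∈ H) (hxy : 2 < ‖x - y‖) : ⟪x, w⟫_ℝ ≠ ⟪y, w⟫_ℝ := by
  have h1 := inner_ne_zero h.1 (h.2 x hx) (h.2 y hy) hxy
  rw [inner_sub_left] at h1
  intro h2
  exact h1 (by rw [h2, sub_self])

/-- Orientation transfer. -/
theorem orient {u v w : V} (hu : ‖u‖ = 1) (hv : ‖v‖ = 1) (hw : ‖w‖ = 1)
    (h1 : 1 / 2 < ⟪u, v⟫_ℝ) (h2 : 1 / 2 < ⟪u, w⟫_ℝ) (h3 : 1 / 2 < |⟪v, w⟫_ℝ|) :
    1 / 2 < ⟪v, w⟫_ℝ := by
  have h4 : 0 ≤ ‖(v + w) - u‖ ^ 2 := by positivity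
  rw [@norm_sub_sq_real, @norm_add_sq_real, inner_add_left, real_inner_comm u v,
    real_inner_comm u w, hu, hv, hw] at h4
  rcases lt_abs.mp h3 with h | h
  · exact h
  · linarith

/-- A pinned line which misses a ball is swapped against every transversal of that ball. -/
theorem not_pinned {A T : Finset V} {μ : ℝ} {p u q v : V} (hpin : Pins A μ p u)
    (hμ : μ ≤ 1) (hu : UT A p u) (hv : Hit T μ R0 q v) (hAT : A ⊆ T)
    (hsep : ∀ x ∈ A, ∀ y ∈ A, x ≠ y → 2 < ‖x - y‖)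
    (hX : v = u → (∃ t : ℝ, q = p + t • u) → False) :
    ∃ x ∈ A, ∃ y ∈ A, Sw u v x y := by
  by_contra hcon
  push Not at hcon
  have hvA : UT A q v := hv.ut hμ hAT
  have h := hpin q v hv.1 (fun c hc => hv.2.1 c (hAT hc)) (fun x hx y hy hxy => by
    have n1 := hu.ne hx hy (hsep x hx y hy hxy)
    have n2 := hvA.ne hx hy (hsep x hx y hy hxy)
    rw [inner_sub_left, inner_sub_left]
    rcases lt_or_gt_of_ne n1 with h1 | h1
    · have h2 : ⟪x, v⟫_ℝ < ⟪y, v⟫_ℝ := by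
        rcases lt_or_gt_of_ne n2 with h2 | h2
        · exact h2
        · exact absurd ⟨h1, h2⟩ (hcon x hx y hy)
      nlinarith
    · have h2 : ⟪y, v⟫_ℝ < ⟪x, v⟫_ℝ := by
        rcases lt_or_gt_of_ne n2 with h2 | h2
        · exact absurd ⟨h1, h2⟩ (hcon y hy x hx)
        · exact h2
      nlinarith)
  exact hX h.1 h.2

variable [FiniteDimensional ℝ V]

/-- The upper bound for the Helly number of line transversals. -/
theorem upper {F : Finset V} {D : ℕ} (hDim : Module.finrank ℝ V = D) (hd : 2 ≤ D)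
    (hsep : ∀ x ∈ F, ∀ y ∈ F, x ≠ y → 2 < ‖x - y‖)
    (hgood : ∀ H ⊆ F, 4 * D - 3 ≤ H.card → Good H)
    (hm : ∀ T ⊆ F, T.card ≤ 4 * D - 1 → ∃ p w : V, UT T p w) : ∃ p w : V, UT F p w := by
  classical
  by_cases hFc : F.card ≤ 4 * D - 1
  · exact hm F subset_rfl hFc
  rw [not_le] at hFc
  -- minimal value of each subset of full size
  have hmins : ∀ G ∈ F.powersetCard (4 * D - 1), ∃ μ p w, 0 ≤ μ ∧ μ ≤ 1 ∧ Hit G μ R0 p w ∧
      ∀ μ' q v, Hit G μ' R0 q v → μ ≤ μ' := by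
    intro G hG
    rw [Finset.mem_powersetCard] at hG
    obtain ⟨p, w, h⟩ := hm G hG.1 hG.2.le
    exact exists_min (Finset.card_pos.mp (by omega))
      ⟨p, w, h.1, h.2, fun _ _ _ _ hr => hr.elim⟩
  choose! M P U m1 m2 m3 m4 using hmins
  have hne : (F.powersetCard (4 * D - 1)).Nonempty := Finset.powersetCard_nonempty.mpr hFc.le
  obtain ⟨G, hG, hGmax⟩ := Finset.exists_max_image _ M hne
  obtain ⟨μ, hμ⟩ : ∃ μ, μ = M G := ⟨_, rfl⟩
  obtain ⟨p1, hp1⟩ : ∃ p, p = P G := ⟨_, rfl⟩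
  obtain ⟨u1, hu1⟩ : ∃ p, p = U G := ⟨_, rfl⟩
  have hμ0 := m1 G hG
  have hμ1 := m2 G hG
  have hit1 := m3 G hG
  have hmin := m4 G hG
  rw [← hμ] at hμ0 hμ1 hit1 hmin hGmax
  rw [← hp1, ← hu1] at hit1
  obtain ⟨hGF, hGc⟩ := Finset.mem_powersetCard.mp hG
  -- all small subsets have a transversal at distance `μ`
  have hsmall : ∀ T ⊆ F, T.card ≤ 4 * D - 1 → ∃ q v, Hit T μ R0 q v := by
    intro T hT hTc
    obtain ⟨T', hT', hT'F, hT'c⟩ := Finset.exists_subsuperset_card_eq hT hTc hFc.le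
    have hmem := Finset.mem_powersetCard.mpr ⟨hT'F, hT'c⟩
    exact ⟨P T', U T', (m3 T' hmem).mono hT' (hGmax T' hmem)⟩
  clear m1 m2 m3 m4 hGmax hp1 hu1 hμ hne
  clear M P U
  have hsepG : ∀ x ∈ G, ∀ y ∈ G, x ≠ y → 2 < ‖x - y‖ := fun x hx y hy =>
    hsep x (hGF hx) y (hGF hy)
  have hpins : ∀ p u, Hit G μ R0 p u → ∃ A ⊆ G, A.card ≤ 2 * D - 1 ∧ Pins A μ p u := by
    intro p u h
    have := exists_pins (by omega) h hmin (by omega) hμ0 hμ1 hsepG
    rwa [hDim] at this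
  obtain ⟨A1, hA1, hA1c, hpin1⟩ := hpins p1 u1 hit1
  by_cases hX1 : ∀ X ∈ F, fd X p1 u1 ≤ μ
  · exact ⟨p1, u1, hit1.1, fun c hc => (hX1 c hc).trans hμ1⟩
  push Not at hX1
  obtain ⟨X1, hX1F, hX1⟩ := hX1
  have hX1G : X1 ∉ G := fun h => absurd (hit1.2.1 X1 h) (not_le.mpr hX1)
  have ut1 : UT G p1 u1 := hit1.ut hμ1 subset_rfl
  -- the transversals for the exchanged families
  have hex : ∀ g ∈ G \ A1, ∃ q v, Hit (insert X1 (G.erase g)) μ R0 q v ∧ 1 / 2 < ⟪u1, v⟫_ℝ := by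
    intro g hg
    rw [Finset.mem_sdiff] at hg
    have hsub : insert X1 (G.erase g) ⊆ F := Finset.insert_subset hX1F
      ((Finset.erase_subset _ _).trans hGF)
    have hcard : (insert X1 (G.erase g)).card ≤ 4 * D - 1 := by
      have e1 := Finset.card_insert_le X1 (G.erase g)
      rw [Finset.card_erase_of_mem hg.1] at e1
      omega
    obtain ⟨q, v, h⟩ := hsmall _ hsub hcard
    have hgd : Good (G.erase g) := hgood _ ((Finset.erase_subset _ _).trans hGF)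
      (by rw [Finset.card_erase_of_mem hg.1]; omega)
    have hk := (hgd p1 u1 q v (hit1.ut hμ1 (Finset.erase_subset _ _))
      (h.ut hμ1 (Finset.subset_insert _ _))).1
    rcases lt_abs.mp hk with hk | hk
    · exact ⟨q, v, h, hk⟩
    · exact ⟨q, -v, h.flip, by rw [inner_neg_right]; exact hk⟩
  have hswap : ∀ g ∈ G \ A1, ∀ q v, Hit (insert X1 (G.erase g)) μ R0 q v →
      ∃ x ∈ A1, ∃ y ∈ A1, Sw u1 v x y := by
    intro g hg q v h
    rw [Finset.mem_sdiff] at hg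
    have hA1T : A1 ⊆ insert X1 (G.erase g) := fun x hx => Finset.mem_insert_of_mem
      (Finset.mem_erase.mpr ⟨fun e => hg.2 (e ▸ hx), hA1 hx⟩)
    refine not_pinned hpin1 hμ1 (hit1.ut hμ1 hA1) h hA1T
      (fun x hx y hy => hsepG x (hA1 hx) y (hA1 hy)) ?_
    rintro rfl ⟨t, rfl⟩
    have h1 := h.2.1 X1 (Finset.mem_insert_self _ _)
    rw [fd_shift hit1.1] at h1
    linarith
  have hC : 2 * D ≤ (G \ A1).card := by
    have := Finset.le_card_sdiff A1 G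
    omega
  obtain ⟨g0, hg0⟩ : (G \ A1).Nonempty := Finset.card_pos.mp (by omega)
  obtain ⟨q0, v0, h0, k0⟩ := hex g0 hg0
  obtain ⟨c, hc, c', hc', hsw0⟩ := hswap g0 hg0 q0 v0 h0
  have hcc : c ≠ c' := by rintro rfl; exact lt_irrefl _ hsw0.1
  -- uniqueness of the swapped pair
  have hgE : ∀ g ∈ G \ A1, Good (G.erase g) := by
    intro g hg
    rw [Finset.mem_sdiff] at hg
    exact hgood _ ((Finset.erase_subset _ _).trans hGF)
      (by rw [Finset.card_erase_of_mem hg.1]; omega)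
  have huniq : ∀ g ∈ G \ A1, ∀ q v, Hit (insert X1 (G.erase g)) μ R0 q v → 1 / 2 < ⟪u1, v⟫_ℝ →
      ∀ x ∈ G.erase g, ∀ y ∈ G.erase g, ∀ x' ∈ G.erase g, ∀ y' ∈ G.erase g,
        Sw u1 v x y → Sw u1 v x' y' → x = x' ∧ y = y' := by
    intro g hg q v h hk x hx y hy x' hx' y' hy' s1 s2
    exact (hgE g hg p1 u1 q v (hit1.ut hμ1 (Finset.erase_subset _ _))
      (h.ut hμ1 (Finset.subset_insert _ _))).2 (by linarith) x hx y hy x' hx' y' hy'
      s1.1 s1.2 s2.1 s2.2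
  have hsame : ∀ g ∈ G \ A1, ∃ q v, Hit (insert X1 (G.erase g)) μ R0 q v ∧ 1 / 2 < ⟪u1, v⟫_ℝ ∧
      Sw u1 v c c' := by
    intro g hg
    by_cases hgg : g = g0
    · rw [hgg]; exact ⟨q0, v0, h0, k0, hsw0⟩
    obtain ⟨q, v, h, hk⟩ := hex g hg
    refine ⟨q, v, h, hk, ?_⟩
    obtain ⟨x, hx, y, hy, hsw⟩ := hswap g hg q v h
    have hgA := Finset.mem_sdiff.mp hg
    have hg0A := Finset.mem_sdiff.mp hg0
    have hmemE : ∀ z ∈ A1, z ∈ G.erase g := fun z hz =>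
      Finset.mem_erase.mpr ⟨fun e => hgA.2 (e ▸ hz), hA1 hz⟩
    have hmemE0 : ∀ z ∈ A1, z ∈ G.erase g0 := fun z hz =>
      Finset.mem_erase.mpr ⟨fun e => hg0A.2 (e ▸ hz), hA1 hz⟩
    by_cases hxy : x = c ∧ y = c'
    · rw [← hxy.1, ← hxy.2]; exact hsw
    exfalso
    -- the pair `c, c'` is not swapped for `v`
    have e1 : ⟪c, v⟫_ℝ < ⟪c', v⟫_ℝ := by
      have hne := (h.ut hμ1 (H := G.erase g) (Finset.subset_insert _ _)).ne (hmemE c hc)
        (hmemE c' hc') (hsepG c (hA1 hc) c' (hA1 hc') hcc)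
      rcases lt_or_gt_of_ne hne with e | e
      · exact e
      · exact absurd (huniq g hg q v h hk x (hmemE x hx) y (hmemE y hy) c (hmemE c hc) c'
          (hmemE c' hc') hsw ⟨hsw0.1, e⟩) hxy
    have hxyne : x ≠ y := by rintro rfl; exact lt_irrefl _ hsw.1
    have e2 : ⟪x, v0⟫_ℝ < ⟪y, v0⟫_ℝ := by
      have hne := (h0.ut hμ1 (H := G.erase g0) (Finset.subset_insert _ _)).ne (hmemE0 x hx)
        (hmemE0 y hy) (hsepG x (hA1 hx) y (hA1 hy) hxyne)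
      rcases lt_or_gt_of_ne hne with e | e
      · exact e
      · exact absurd (huniq g0 hg0 q0 v0 h0 k0 x (hmemE0 x hx) y (hmemE0 y hy) c (hmemE0 c hc) c'
          (hmemE0 c' hc') ⟨hsw.1, e⟩ hsw0) hxy
    have hHsub : (G.erase g).erase g0 ⊆ F :=
      (Finset.erase_subset _ _).trans ((Finset.erase_subset _ _).trans hGF)
    have hHgood : Good ((G.erase g).erase g0) := by
      apply hgood _ hHsub
      rw [Finset.card_erase_of_mem (Finset.mem_erase.mpr ⟨fun e => hgg e.symm, hg0A.1⟩),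
        Finset.card_erase_of_mem hgA.1]
      omega
    have hmemH : ∀ z ∈ A1, z ∈ (G.erase g).erase g0 := fun z hz =>
      Finset.mem_erase.mpr ⟨fun e => hg0A.2 (e ▸ hz), hmemE z hz⟩
    have utv0 : UT ((G.erase g).erase g0) q0 v0 := h0.ut hμ1 (fun z hz => by
      rw [Finset.mem_erase, Finset.mem_erase] at hz
      exact Finset.mem_insert_of_mem (Finset.mem_erase.mpr ⟨hz.1, hz.2.2⟩))
    have utv : UT ((G.erase g).erase g0) q v := h.ut hμ1 (fun z hz =>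
      Finset.mem_insert_of_mem (Finset.mem_of_mem_erase hz))
    have hgd := hHgood q0 v0 q v utv0 utv
    have hor := orient hit1.1 h0.1 h.1 k0 hk hgd.1
    have := hgd.2 (by linarith) c' (hmemH c' hc') c (hmemH c hc) x (hmemH x hx) y (hmemH y hy)
      hsw0.2 e1 e2 hsw.2
    have f1 := hsw.1
    rw [← this.1, ← this.2] at f1
    exact lt_asymm f1 hsw0.1
  -- the modified order
  obtain ⟨Rel, hRel⟩ : ∃ Rel : V → V → Prop, ∀ x y, Rel x y ↔
      ((⟪x, u1⟫_ℝ < ⟪y, u1⟫_ℝ ∧ ¬ (x = c ∧ y = c')) ∨ (x = c' ∧ y = c)) :=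
    ⟨fun x y => ((⟪x, u1⟫_ℝ < ⟪y, u1⟫_ℝ ∧ ¬ (x = c ∧ y = c')) ∨ (x = c' ∧ y = c)),
      fun _ _ => Iff.rfl⟩
  have htot : ∀ x ∈ G, ∀ y ∈ G, x ≠ y → Rel x y ∨ Rel y x := by
    intro x hx y hy hxy
    rw [hRel, hRel]
    rcases lt_or_gt_of_ne (ut1.ne hx hy (hsepG x hx y hy hxy)) with h | h
    · by_cases e : x = c ∧ y = c'
      · exact Or.inr (Or.inr ⟨e.2, e.1⟩)
      · exact Or.inl (Or.inl ⟨h, e⟩)
    · by_cases e : y = c ∧ x = c'
      · exact Or.inl (Or.inr ⟨e.2, e.1⟩)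
      · exact Or.inr (Or.inl ⟨h, e⟩)
  have hhit : ∀ g ∈ G \ A1, ∃ q v, Hit (G.erase g) μ Rel q v := by
    intro g hg
    obtain ⟨q, v, h, hk, hsw⟩ := hsame g hg
    have hgA := Finset.mem_sdiff.mp hg
    have hmemE : ∀ z ∈ A1, z ∈ G.erase g := fun z hz =>
      Finset.mem_erase.mpr ⟨fun e => hgA.2 (e ▸ hz), hA1 hz⟩
    refine ⟨q, v, h.1, fun z hz => h.2.1 z (Finset.mem_insert_of_mem hz), ?_⟩
    intro x hx y hy hr
    rw [inner_sub_left]
    rw [hRel] at hr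
    rcases hr with ⟨hr, hne⟩ | ⟨rfl, rfl⟩
    · by_contra hcon
      exact hne (huniq g hg q v h hk x hx y hy c (hmemE c hc) c' (hmemE c' hc')
        ⟨hr, by linarith⟩ hsw)
    · linarith [hsw.2]
  have hex2 : ∃ p w, Hit G μ Rel p w := by
    by_contra hno
    obtain ⟨H, hHG, hHc, hHno⟩ := ordered_helly (by omega) hμ1 hsepG htot hno
    rw [hDim] at hHc
    have hCH : G \ A1 ⊆ H := by
      intro g hg
      by_contra hgH
      obtain ⟨q, v, h⟩ := hhit g hg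
      exact hHno ⟨q, v, h.mono (fun z hz => Finset.mem_erase.mpr
        ⟨fun e => hgH (e ▸ hz), hHG hz⟩) le_rfl⟩
    apply hHno
    refine ⟨p1, u1, hit1.1, fun z hz => hit1.2.1 z (hHG hz), ?_⟩
    intro x hx y hy hr
    rw [inner_sub_left]
    rw [hRel] at hr
    rcases hr with ⟨hr, hne⟩ | ⟨rfl, rfl⟩
    · linarith
    · exfalso
      have e1 : insert x (insert y (G \ A1)) ⊆ H :=
        Finset.insert_subset hx (Finset.insert_subset hy hCH)
      have e2 := Finset.card_le_card e1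
      rw [Finset.card_insert_of_notMem, Finset.card_insert_of_notMem] at e2
      · omega
      · rw [Finset.mem_sdiff]; exact fun h => h.2 hc
      · rw [Finset.mem_insert, Finset.mem_sdiff]
        rintro (h | h)
        · exact hcc h.symm
        · exact h.2 hc'
  obtain ⟨p2, u2, hit2⟩ := hex2
  have ut2 : UT G p2 u2 := hit2.ut hμ1 subset_rfl
  have hGc' : c ∈ G ∧ c' ∈ G := ⟨hA1 hc, hA1 hc'⟩
  -- comparison of the two orders
  have o1 : ⟪c', u2⟫_ℝ < ⟪c, u2⟫_ℝ := by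
    have := hit2.rel_pos hμ1 hGc'.2 hGc'.1 (hsepG c' hGc'.2 c hGc'.1 hcc.symm)
      ((hRel c' c).mpr (Or.inr ⟨rfl, rfl⟩))
    rw [inner_sub_left] at this
    linarith
  have o2 : ∀ x ∈ G, ∀ y ∈ G, ⟪x, u1⟫_ℝ < ⟪y, u1⟫_ℝ → ¬ (x = c ∧ y = c') →
      ⟪x, u2⟫_ℝ < ⟪y, u2⟫_ℝ := by
    intro x hx y hy h1 h2
    have hxy : x ≠ y := by rintro rfl; exact lt_irrefl _ h1
    have := hit2.rel_pos hμ1 hx hy (hsepG x hx y hy hxy)
      ((hRel x y).mpr (Or.inl ⟨h1, h2⟩))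
    rw [inner_sub_left] at this
    linarith
  have o1' : ⟪c, u1⟫_ℝ < ⟪c', u1⟫_ℝ := hsw0.1
  have hκ12 : 1 / 2 < ⟪u1, u2⟫_ℝ := by
    have hgd := hgood G hGF (by omega)
    have h1 := (hgd p1 u1 p2 u2 ut1 ut2).1
    rcases lt_abs.mp h1 with h | h
    · exact h
    exfalso
    have ut2' : UT G p2 (-u2) := (hit2.r0.flip).ut hμ1 subset_rfl
    have h2 := (hgd p1 u1 p2 (-u2) ut1 ut2').2 (by rw [inner_neg_right]; linarith)
    simp only [inner_neg_right, neg_lt_neg_iff] at h2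
    obtain ⟨z, hz⟩ : ((G.erase c).erase c').Nonempty := by
      apply Finset.card_pos.mp
      rw [Finset.card_erase_of_mem (Finset.mem_erase.mpr ⟨hcc.symm, hGc'.2⟩),
        Finset.card_erase_of_mem hGc'.1]
      omega
    rw [Finset.mem_erase, Finset.mem_erase] at hz
    obtain ⟨hzc', hzc, hzG⟩ := hz
    have n1 := ut1.ne hzG hGc'.1 (hsepG z hzG c hGc'.1 hzc)
    have n2 := ut1.ne hzG hGc'.2 (hsepG z hzG c' hGc'.2 hzc')
    rcases lt_or_gt_of_ne n1 with n1 | n1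
    · -- z below c, hence below c'
      have n3 : ⟪z, u1⟫_ℝ < ⟪c', u1⟫_ℝ := n1.trans o1'
      exact hcc (h2 z hzG c hGc'.1 z hzG c' hGc'.2 n1
        (o2 z hzG c hGc'.1 n1 (fun e => hzc e.1)) n3
        (o2 z hzG c' hGc'.2 n3 (fun e => hzc e.1))).2
    · rcases lt_or_gt_of_ne n2 with n2 | n2
      · exact hzc' (h2 c hGc'.1 z hzG z hzG c' hGc'.2 n1
          (o2 c hGc'.1 z hzG n1 (fun e => hzc' e.2)) n2
          (o2 z hzG c' hGc'.2 n2 (fun e => hzc e.1))).2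
      · exact hcc (h2 c hGc'.1 z hzG c' hGc'.2 z hzG n1
          (o2 c hGc'.1 z hzG n1 (fun e => hzc' e.2)) n2
          (o2 c' hGc'.2 z hzG n2 (fun e => hcc e.1.symm))).1
  obtain ⟨A2, hA2, hA2c, hpin2⟩ := hpins p2 u2 hit2.r0
  have hcA2 : c ∈ A2 ∧ c' ∈ A2 := by
    obtain ⟨x, hx, y, hy, hsw⟩ := not_pinned hpin2 hμ1 (hit2.ut hμ1 hA2) hit1 hA2
      (fun x hx y hy => hsepG x (hA2 hx) y (hA2 hy)) (by
        intro h _
        rw [← h] at o1
        exact lt_asymm o1 o1')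
    by_cases e : y = c ∧ x = c'
    · rw [← e.1, ← e.2]; exact ⟨hy, hx⟩
    · exact absurd (o2 y (hA2 hy) x (hA2 hx) hsw.2 e) (not_lt.mpr hsw.1.le)
  by_cases hX2 : ∀ X ∈ F, fd X p2 u2 ≤ μ
  · exact ⟨p2, u2, hit2.1, fun c hc => (hX2 c hc).trans hμ1⟩
  push Not at hX2
  obtain ⟨X2, hX2F, hX2⟩ := hX2
  exfalso
  have hBc : 1 < (G \ (A1 ∪ A2)).card := by
    have e1 := Finset.le_card_sdiff (A1 ∪ A2) G
    have e2 := Finset.card_union_add_card_inter A1 A2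
    have e3 : 2 ≤ (A1 ∩ A2).card := by
      have : ({c, c'} : Finset V) ⊆ A1 ∩ A2 := by
        intro z hz
        rw [Finset.mem_insert, Finset.mem_singleton] at hz
        rw [Finset.mem_inter]
        rcases hz with rfl | rfl
        · exact ⟨hc, hcA2.1⟩
        · exact ⟨hc', hcA2.2⟩
      have h2 := Finset.card_le_card this
      rwa [Finset.card_pair hcc] at h2
    omega
  obtain ⟨g, hg, g', hg', hgg⟩ := Finset.one_lt_card.mp hBc
  rw [Finset.mem_sdiff, Finset.mem_union, not_or] at hg hg'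
  obtain ⟨H, hH⟩ : ∃ H, H = (G.erase g).erase g' := ⟨_, rfl⟩
  have hHc : H.card = 4 * D - 1 - 1 - 1 := by
    rw [hH, Finset.card_erase_of_mem (Finset.mem_erase.mpr ⟨hgg.symm, hg'.1⟩),
      Finset.card_erase_of_mem hg.1, hGc]
  have hHG : H ⊆ G := by
    rw [hH]; exact (Finset.erase_subset _ _).trans (Finset.erase_subset _ _)
  have hA1H : A1 ⊆ H := fun z hz => by
    rw [hH]
    exact Finset.mem_erase.mpr ⟨fun e => hg'.2.1 (e ▸ hz),
      Finset.mem_erase.mpr ⟨fun e => hg.2.1 (e ▸ hz), hA1 hz⟩⟩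
  have hA2H : A2 ⊆ H := fun z hz => by
    rw [hH]
    exact Finset.mem_erase.mpr ⟨fun e => hg'.2.2 (e ▸ hz),
      Finset.mem_erase.mpr ⟨fun e => hg.2.2 (e ▸ hz), hA2 hz⟩⟩
  have hTF : insert X1 (insert X2 H) ⊆ F := Finset.insert_subset hX1F
    (Finset.insert_subset hX2F (hHG.trans hGF))
  have hTc : (insert X1 (insert X2 H)).card ≤ 4 * D - 1 := by
    have e1 := Finset.card_insert_le X1 (insert X2 H)
    have e2 := Finset.card_insert_le X2 H
    omega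
  have hHT : H ⊆ insert X1 (insert X2 H) :=
    (Finset.subset_insert _ _).trans (Finset.subset_insert _ _)
  have hgdH : Good H := hgood H (hHG.trans hGF) (by omega)
  have hor : ∃ q v, Hit (insert X1 (insert X2 H)) μ R0 q v ∧ 1 / 2 < ⟪u1, v⟫_ℝ := by
    obtain ⟨q, v, h⟩ := hsmall _ hTF hTc
    have hk := (hgdH p1 u1 q v (hit1.ut hμ1 hHG) (h.ut hμ1 hHT)).1
    rcases lt_abs.mp hk with hk | hk
    · exact ⟨q, v, h, hk⟩
    · exact ⟨q, -v, h.flip, by rw [inner_neg_right]; exact hk⟩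
  obtain ⟨q, v, h, hk1⟩ := hor
  have utH : UT H q v := h.ut hμ1 hHT
  have gd1 := hgdH p1 u1 q v (hit1.ut hμ1 hHG) utH
  have gd2 := hgdH p2 u2 q v (hit2.ut hμ1 hHG) utH
  have hk2 : 1 / 2 < ⟪u2, v⟫_ℝ := orient hit1.1 hit2.1 h.1 hκ12 hk1 gd2.1
  obtain ⟨x, hx, y, hy, hsw⟩ := not_pinned hpin1 hμ1 (hit1.ut hμ1 hA1) h (hA1H.trans hHT)
    (fun x hx y hy => hsepG x (hA1 hx) y (hA1 hy)) (by
      rintro rfl ⟨t, rfl⟩
      have h1 := h.2.1 X1 (Finset.mem_insert_self _ _)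
      rw [fd_shift hit1.1] at h1
      linarith)
  obtain ⟨x', hx', y', hy', hsw'⟩ := not_pinned hpin2 hμ1 (hit2.ut hμ1 hA2) h (hA2H.trans hHT)
    (fun x hx y hy => hsepG x (hA2 hx) y (hA2 hy)) (by
      rintro rfl ⟨t, rfl⟩
      have h1 := h.2.1 X2 (Finset.mem_insert_of_mem (Finset.mem_insert_self _ _))
      rw [fd_shift hit2.1] at h1
      linarith)
  have f1 := gd1.2 (by linarith)
  have f2 := gd2.2 (by linarith)
  have hxy : x = c ∧ y = c' := by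
    by_contra hne
    have e1 : ⟪c, v⟫_ℝ < ⟪c', v⟫_ℝ := by
      rcases lt_or_gt_of_ne (utH.ne (hA1H hc) (hA1H hc') (hsepG c (hA1 hc) c' (hA1 hc') hcc))
        with e | e
      · exact e
      · exact absurd (f1 x (hA1H hx) y (hA1H hy) c (hA1H hc) c' (hA1H hc') hsw.1 hsw.2 o1' e) hne
    have e2 := o2 x (hA1 hx) y (hA1 hy) hsw.1 hne
    have e3 := f2 c' (hA1H hc') c (hA1H hc) x (hA1H hx) y (hA1H hy) o1 e1 e2 hsw.2
    have e4 := hsw.1
    rw [← e3.1, ← e3.2] at e4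
    exact lt_asymm e4 o1'
  have hcv : ⟪c', v⟫_ℝ < ⟪c, v⟫_ℝ := by
    have := hsw.2
    rwa [hxy.1, hxy.2] at this
  by_cases hxy' : y' = c ∧ x' = c'
  · have := hsw'.2
    rw [hxy'.1, hxy'.2] at this
    exact lt_asymm this hcv
  · have hxyne : x' ≠ y' := by rintro rfl; exact lt_irrefl _ hsw'.1
    rcases lt_or_gt_of_ne (ut1.ne (hA2 hx') (hA2 hy')
      (hsepG x' (hA2 hx') y' (hA2 hy') hxyne)) with e | e
    · have e3 := f1 x' (hA2H hx') y' (hA2H hy') c (hA1H hc) c' (hA1H hc') e hsw'.2 o1' hcv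
      have e4 := hsw'.1
      rw [e3.1, e3.2] at e4
      exact lt_asymm e4 o1
    · exact absurd (o2 y' (hA2 hy') x' (hA2 hx') e hxy') (not_lt.mpr hsw'.1.le)

end Pool.Agent.H44.Danzer
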