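import Mathlib
import Pool.Agent.H44.Danzer.Upper

set_option autoImplicit false

open scoped InnerProductSpace Topology

namespace Pool.Agent.H44.Danzer

variable {V : Type*} [NormedAddCommGroup V] [InnerProductSpace ℝ V]

theorem ut_of_transversal {T : Finset V} {p v : V} (hv : v ≠ 0)
    (h : ∀ c ∈ T, ∃ t : ℝ, dist (p + t • v) c ≤ 1) : UT T p (‖v‖⁻¹ • v) := by
  have hv' : ‖v‖ ≠ 0 := norm_ne_zero_iff.mpr hv
  have hw : ‖‖v‖⁻¹ • v‖ = 1 := by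
    rw [norm_smul, norm_inv, norm_norm, inv_mul_cancel₀ hv']
  refine ⟨hw, fun c hc => ?_⟩
  obtain ⟨t, ht⟩ := h c hc
  obtain ⟨w, hwe⟩ : ∃ w, w = ‖v‖⁻¹ • v := ⟨_, rfl⟩
  rw [← hwe] at hw ⊢
  have e1 : t • v = (t * ‖v‖) • w := by
    rw [hwe, smul_smul, mul_assoc, mul_inv_cancel₀ hv', mul_one]
  rw [e1, dist_eq_norm, norm_sub_rev] at ht
  have e2 : c - (p + (t * ‖v‖) • w) = (c - p) - (t * ‖v‖) • w := by abel
  rw [e2] at ht
  have e3 : ‖(c - p) - (t * ‖v‖) • w‖ ^ 2 ≤ 1 := by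
    have := norm_nonneg ((c - p) - (t * ‖v‖) • w)
    nlinarith
  rw [@norm_sub_sq_real, inner_smul_right, norm_smul, hw, mul_pow, Real.norm_eq_abs, sq_abs] at e3
  unfold fd
  nlinarith [sq_nonneg (⟪c - p, w⟫_ℝ - t * ‖v‖)]

theorem transversal_of_ut {T : Finset V} {p w : V} (h : UT T p w) :
    w ≠ 0 ∧ ∀ c ∈ T, ∃ t : ℝ, dist (p + t • w) c ≤ 1 := by
  refine ⟨fun h0 => by have := h.1; rw [h0, norm_zero] at this; norm_num at this, ?_⟩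
  intro c hc
  refine ⟨⟪c - p, w⟫_ℝ, ?_⟩
  have h1 := h.2 c hc
  rw [← norm_zc_sq h.1] at h1
  rw [dist_eq_norm, norm_sub_rev]
  have e2 : c - (p + ⟪c - p, w⟫_ℝ • w) = zc c p w := by unfold zc; abel
  rw [e2]
  have := norm_nonneg (zc c p w)
  nlinarith

/-- The upper bound `4 d - 1` for the transversal Helly number in dimension `d ≥ 2`. -/
theorem upper_euclidean {d : ℕ} (hd : 2 ≤ d) (S : Finset (EuclideanSpace ℝ (Fin d)))
    (hsep : ∀ x ∈ S, ∀ y ∈ S, x ≠ y → 2 < dist x y)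
    (hT : ∀ T ⊆ S, T.card ≤ 4 * d - 1 →
      ∃ p v : EuclideanSpace ℝ (Fin d), v ≠ 0 ∧ ∀ c ∈ T, ∃ t : ℝ, dist (p + t • v) c ≤ 1) :
    ∃ p v : EuclideanSpace ℝ (Fin d), v ≠ 0 ∧ ∀ c ∈ S, ∃ t : ℝ, dist (p + t • v) c ≤ 1 := by
  simp only [dist_eq_norm] at hsep
  have hsub : ∀ H ⊆ S, ∀ x ∈ H, ∀ y ∈ H, x ≠ y → 2 < ‖x - y‖ := fun H hH x hx y hy =>
    hsep x (hH hx) y (hH hy)
  have hgood : ∀ H ⊆ S, 4 * d - 3 ≤ H.card → Good H := by
    intro H hH hc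
    rcases eq_or_lt_of_le hd with h2 | h3
    · subst h2
      exact good_five (hsub H hH) (by omega)
    · exact good_nine (hsub H hH) (by omega)
  obtain ⟨p, w, h⟩ := upper (F := S) (D := d) (by simp) hd hsep hgood (fun T hTS hc => by
    obtain ⟨p, v, hv, h⟩ := hT T hTS hc
    exact ⟨p, _, ut_of_transversal hv h⟩)
  exact ⟨p, w, transversal_of_ut h⟩

end Pool.Agent.H44.Danzer
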